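import Pool.Agent.H59.GC.W
import Pool.Agent.H2.GC.Base

/-!
Reduced words in the kernel with coincidences (module Z).
-/

set_option autoImplicit false
set_option linter.unusedSectionVars false
set_option linter.unusedSimpArgs false
set_option linter.unusedVariables false

open Finset Pool.Agent.H23.GW Pool.Agent.H23.GC
open scoped Classical Nat

namespace Pool.Agent.H59.GC

noncomputable section

variable {ι : Type} [Fintype ι] {κ : Type} [Fintype κ]

open Pool.Agent.H2.GC (nrm_triangle nrm_neg)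

private theorem cfs {α : Type} {s : Finset α} {P : α → Prop} {d1 d2 : DecidablePred P} :
    #(@Finset.filter α P d1 s) = #(@Finset.filter α P d2 s) := by
  cases Subsingleton.elim d1 d2
  rfl

private theorem cfi {α : Type} {f1 f2 : Fintype α} {P : α → Prop} {d1 d2 : DecidablePred P} :
    #(@Finset.filter α P d1 (@Finset.univ α f1)) = #(@Finset.filter α P d2 (@Finset.univ α f2)) := by
  cases Subsingleton.elim f1 f2
  cases Subsingleton.elim d1 d2
  rfl

theorem ell_neg (a : ι → ℤ) : ell (-a) = ell a := by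
  unfold ell
  congr 1
  ext i
  simp

/-! ### Counting words with coincidences -/

/-- a family of words in which the letters on `T` are determined by the others -/
theorem card_det {D : Type} [Fintype D] (F : Finset (κ → D)) (T : Finset κ)
    (h : ∀ w ∈ F, ∀ w' ∈ F, (∀ a, a ∉ T → w a = w' a) → w = w') :
    #F ≤ Fintype.card D ^ (Fintype.card κ - #T) := by
  have h1 : #F ≤ #(univ : Finset ({a // a ∉ T} → D)) := by
    refine card_le_card_of_injOn (fun w => fun a : {a // a ∉ T} => w a.1) (fun _ _ => mem_univ _) ?_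
    intro w hw w' hw' hww
    exact h w hw w' hw' fun a ha => congrFun hww ⟨a, ha⟩
  refine h1.trans (le_of_eq ?_)
  rw [card_univ, Fintype.card_fun, Fintype.card_subtype_compl, Fintype.card_coe]

/-- words with `w i = w j`, `w k = w l`: lower bound for their number -/
theorem card_pat {D : Type} [Fintype D] (i j k l : κ) (hn : [i, j, k, l].Nodup) :
    Fintype.card D ^ (Fintype.card κ - 2) ≤
      #(univ.filter fun w : κ → D => w i = w j ∧ w k = w l) := by
  simp only [List.nodup_cons, List.mem_cons, List.not_mem_nil, or_false, not_or] at hn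
  obtain ⟨⟨hij, hik, hil⟩, ⟨hjk, hjl⟩, hkl, -⟩ := hn
  set T : Finset κ := {j, l} with hT
  have hTc : #T = 2 := by rw [hT, Finset.card_pair hjl]
  have hiT : i ∉ T := by simp [hT, hij, hil]
  have hkT : k ∉ T := by simp [hT, hkl, Ne.symm hjk]
  have h1 : #(univ : Finset ({a // a ∉ T} → D)) ≤
      #(univ.filter fun w : κ → D => w i = w j ∧ w k = w l) := by
    refine card_le_card_of_injOn (fun v => fun a : κ =>
      if ha : a ∈ T then (if a = j then v ⟨i, hiT⟩ else v ⟨k, hkT⟩) else v ⟨a, ha⟩) ?_ ?_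
    · intro v _
      simp only [coe_filter, mem_univ, true_and, Set.mem_ofPred_eq]
      have hj : j ∈ T := by simp [hT]
      have hl : l ∈ T := by simp [hT]
      rw [dif_neg hiT, dif_pos hj, dif_neg hkT, dif_pos hl, if_neg (Ne.symm hjl)]
      exact ⟨by simp, rfl⟩
    · intro v _ v' _ hvv
      ext1 a
      have := congrFun hvv a.1
      simp only [dif_neg a.2] at this
      exact this
  refine le_trans (le_of_eq ?_) h1
  rw [card_univ, Fintype.card_fun, Fintype.card_subtype_compl, Fintype.card_coe, hTc]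

/-! ### Splitting words -/

theorem vs_split (z : κ → ι × Bool) (p : κ → Prop) :
    vs z = vs (fun k : {k // p k} => z k.1) + vs (fun k : {k // ¬ p k} => z k.1) := by
  unfold vs
  exact (Fintype.sum_subtype_add_sum_subtype p fun k => dv (z k)).symm

theorem vs_sum {κ' : Type} [Fintype κ'] (w : κ → ι × Bool) (u : κ' → ι × Bool) :
    vs (Sum.elim w u) = vs w + vs u := by
  unfold vs
  rw [Fintype.sum_sum_type]
  rfl

variable {G : Type} [AddCommGroup G] {s : ℕ} {ev : (ι → ℤ) →+ G}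

theorem pc_unique (hPC : PC s ev) {a b : ι → ℤ} (ha : nrm a ≤ s) (hb : nrm b ≤ s)
    (h : ev a = ev b) : a = b := by
  obtain ⟨c, -, hc⟩ := hPC (ev b)
  rw [hc a ⟨ha, h⟩, hc b ⟨hb, rfl⟩]

/-- upper bound: the last `s` letters are determined up to permutation -/
theorem UB (hPC : PC s ev) (p : κ → Prop) (hB : Fintype.card {k // ¬ p k} = s)
    (P : ({k // p k} → ι × Bool) → Prop) :
    #{z ∈ Zr ev κ | P (fun k => z k.1)} ≤ s ! * #{w : {k // p k} → ι × Bool | P w} := by
  have hcard : Fintype.card {k // p k} + Fintype.card {k // ¬ p k} = Fintype.card κ := by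
    rw [Fintype.card_subtype_compl]
    have := Fintype.card_subtype_le p
    omega
  refine card_le_mul_card_image_of_maps_to
    (f := fun z : κ → ι × Bool => fun k : {k // p k} => z k.1) ?_ _ ?_
  · intro z hz
    simp only [mem_filter, mem_univ, true_and] at hz ⊢
    exact hz.2
  · intro w _
    by_cases hne : ({z ∈ {z ∈ Zr ev κ | P (fun k => z k.1)} |
        (fun k : {k // p k} => z k.1) = w} : Finset (κ → ι × Bool)).Nonempty
    · obtain ⟨z₀, hz₀⟩ := hne
      simp only [mem_filter, Zr, mem_univ, true_and] at hz₀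
      obtain ⟨⟨⟨hn₀, he₀⟩, -⟩, hw₀⟩ := hz₀
      set u₀ : {k // ¬ p k} → ι × Bool := fun k => z₀ k.1 with hu₀
      have hsp₀ := vs_split z₀ p
      rw [hw₀] at hsp₀
      have hnu : nrm (vs u₀) = Fintype.card {k // ¬ p k} := by
        have h1 := nrm_vs_le u₀
        have h2 := nrm_vs_le w
        have h3 := nrm_triangle (vs w) (vs u₀)
        rw [← hsp₀, hn₀] at h3
        omega
      have hT := ((Pool.Agent.H59.GC.w ι {k // ¬ p k}).2 (vs u₀) hnu).2.1
      rw [hB] at hT
      refine le_trans (card_le_card_of_injOn (fun z => fun k : {k // ¬ p k} => z k.1) ?_ ?_) hT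
      · intro z hz
        simp only [coe_filter, mem_filter, Zr, mem_univ, true_and, Set.mem_ofPred_eq] at hz ⊢
        obtain ⟨⟨⟨hn, he⟩, -⟩, hw⟩ := hz
        have hsp := vs_split z p
        rw [hw] at hsp
        have h1 := nrm_vs_le (fun k : {k // ¬ p k} => z k.1)
        have h2 := nrm_vs_le u₀
        refine neg_injective (pc_unique hPC (by rw [nrm_neg]; omega) (by rw [nrm_neg]; omega) ?_)
        rw [hsp₀, map_add] at he₀
        rw [hsp, map_add] at he
        rw [map_neg, map_neg, ← eq_neg_of_add_eq_zero_left he, ← eq_neg_of_add_eq_zero_left he₀]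
      · intro z hz z' hz' hzz
        simp only [coe_filter, mem_filter, Zr, mem_univ, true_and, Set.mem_ofPred_eq] at hz hz'
        ext1 k
        by_cases hk : p k
        · exact (congrFun hz.2 ⟨k, hk⟩).trans (congrFun hz'.2 ⟨k, hk⟩).symm
        · exact congrFun hzz ⟨k, hk⟩
    · rw [not_nonempty_iff_eq_empty] at hne
      rw [hne, card_empty]
      exact Nat.zero_le _

/-- the general upper bound: `T` is a set of positions determined by the others inside `A` -/
theorem UB' (hPC : PC s ev) (S T : Finset κ) (hTS : T ⊆ S) (hS : #S + s ≤ Fintype.card κ)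
    (Q : (κ → ι × Bool) → Prop)
    (hQ : ∀ z z', Q z → Q z' → (∀ a ∈ S, a ∉ T → z a = z' a) → ∀ a ∈ S, z a = z' a) :
    #{z ∈ Zr ev κ | Q z} ≤
      s ! * Fintype.card (ι × Bool) ^ (Fintype.card κ - s - #T) := by
  obtain ⟨A, hSA, -, hA⟩ := exists_subsuperset_card_eq (subset_univ S)
    (show #S ≤ Fintype.card κ - s by omega) (by rw [card_univ]; omega)
  obtain ⟨p, hp⟩ : ∃ p : κ → Prop, ∀ k, p k ↔ k ∈ A := ⟨_, fun _ => Iff.rfl⟩
  have hcA : Fintype.card {k // p k} = Fintype.card κ - s := by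
    rw [← hA, Fintype.card_subtype]
    congr 1
    ext k
    simp [hp]
  have hB : Fintype.card {k // ¬ p k} = s := by
    rw [Fintype.card_subtype_compl, hcA]
    omega
  obtain ⟨P, hP⟩ : ∃ P : ({k // p k} → ι × Bool) → Prop,
      ∀ w, P w ↔ ∃ z, Q z ∧ (fun k : {k // p k} => z k.1) = w := ⟨_, fun _ => Iff.rfl⟩
  have h1 : #{z ∈ Zr ev κ | Q z} ≤ #{z ∈ Zr ev κ | P (fun k => z k.1)} := by
    refine card_le_card fun z hz => ?_
    simp only [mem_filter] at hz ⊢
    exact ⟨hz.1, (hP _).2 ⟨z, hz.2, rfl⟩⟩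
  refine (h1.trans (UB hPC p hB P)).trans (Nat.mul_le_mul_left _ ?_)
  have h2 := card_det (univ.filter P) (T.subtype p) ?_
  · have h3 : #(T.subtype p) = #T := by
      rw [card_subtype]
      congr 1
      rw [filter_eq_self]
      intro a ha
      exact (hp a).2 (hSA (hTS ha))
    rw [h3, hcA] at h2
    exact h2
  · intro w hw w' hw' hww
    simp only [mem_filter, mem_univ, true_and, hP] at hw hw'
    obtain ⟨z, hz, rfl⟩ := hw
    obtain ⟨z', hz', rfl⟩ := hw'
    ext1 a
    by_cases ha : a.1 ∈ S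
    · refine hQ z z' hz hz' (fun b hb hbT => ?_) a.1 ha
      exact hww ⟨b, (hp b).2 (hSA hb)⟩ (by simpa using hbT)
    · exact hww a (fun h => ha (hTS (by simpa using h)))

/-! ### Upper bounds -/

theorem up22 (hPC : PC s ev) (i j k l : κ) (hn : [i, j, k, l].Nodup)
    (hs : 4 + s ≤ Fintype.card κ) :
    #{z ∈ Zr ev κ | z i = z j ∧ z k = z l} ≤
      s ! * Fintype.card (ι × Bool) ^ (Fintype.card κ - s - 2) := by
  simp only [List.nodup_cons, List.mem_cons, List.not_mem_nil, or_false, not_or] at hn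
  obtain ⟨⟨hij, hik, hil⟩, ⟨hjk, hjl⟩, hkl, -⟩ := hn
  have hT : #({j, l} : Finset κ) = 2 := Finset.card_pair hjl
  have h := UB' (κ := κ) hPC {i, j, k, l} {j, l} (by intro a; simp; tauto)
    (by
      have : #({i, j, k, l} : Finset κ) ≤ 4 := card_le_four
      omega) (fun z => z i = z j ∧ z k = z l) (by
      rintro z z' ⟨h1, h2⟩ ⟨h3, h4⟩ h5
      have hi : z i = z' i := h5 i (by simp) (by simp [hij, hil])
      have hk : z k = z' k := h5 k (by simp) (by simp [hkl, Ne.symm hjk])
      intro a ha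
      simp only [mem_insert, mem_singleton] at ha
      rcases ha with rfl | rfl | rfl | rfl
      · exact hi
      · rw [← h1, ← h3, hi]
      · exact hk
      · rw [← h2, ← h4, hk])
  rw [hT] at h
  exact le_of_eq_of_le cfs h

theorem up222 (hPC : PC s ev) (i j k l p q : κ) (hn : [i, j, k, l, p, q].Nodup)
    (hs : 6 + s ≤ Fintype.card κ) :
    #{z ∈ Zr ev κ | z i = z j ∧ z k = z l ∧ z p = z q} ≤
      s ! * Fintype.card (ι × Bool) ^ (Fintype.card κ - s - 3) := by
  simp only [List.nodup_cons, List.mem_cons, List.not_mem_nil, or_false, not_or] at hn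
  obtain ⟨⟨hij, hik, hil, hip, hiq⟩, ⟨hjk, hjl, hjp, hjq⟩, ⟨hkl, hkp, hkq⟩, ⟨hlp, hlq⟩, hpq, -⟩ := hn
  have hT : #({j, l, q} : Finset κ) = 3 := card_eq_three.2 ⟨j, l, q, hjl, hjq, hlq, rfl⟩
  have h := UB' (κ := κ) hPC {i, j, k, l, p, q} {j, l, q} (by intro a; simp; tauto)
    (by
      have : #({i, j, k, l, p, q} : Finset κ) ≤ 6 := card_le_six
      omega) (fun z => z i = z j ∧ z k = z l ∧ z p = z q) (by
      rintro z z' ⟨h1, h2, h2'⟩ ⟨h3, h4, h4'⟩ h5
      have hi : z i = z' i := h5 i (by simp) (by simp [hij, hil, hiq])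
      have hk : z k = z' k := h5 k (by simp) (by simp [hkl, hkq, Ne.symm hjk])
      have hp : z p = z' p := h5 p (by simp) (by simp [hpq, Ne.symm hjp, Ne.symm hlp])
      intro a ha
      simp only [mem_insert, mem_singleton] at ha
      rcases ha with rfl | rfl | rfl | rfl | rfl | rfl
      · exact hi
      · rw [← h1, ← h3, hi]
      · exact hk
      · rw [← h2, ← h4, hk]
      · exact hp
      · rw [← h2', ← h4', hp])
  rw [hT] at h
  exact le_of_eq_of_le cfs h

theorem up32 (hPC : PC s ev) (i j k p q : κ) (hn : [i, j, k, p, q].Nodup)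
    (hs : 5 + s ≤ Fintype.card κ) :
    #{z ∈ Zr ev κ | z i = z j ∧ z j = z k ∧ z p = z q} ≤
      s ! * Fintype.card (ι × Bool) ^ (Fintype.card κ - s - 3) := by
  simp only [List.nodup_cons, List.mem_cons, List.not_mem_nil, or_false, not_or] at hn
  obtain ⟨⟨hij, hik, hip, hiq⟩, ⟨hjk, hjp, hjq⟩, ⟨hkp, hkq⟩, hpq, -⟩ := hn
  have hT : #({j, k, q} : Finset κ) = 3 := card_eq_three.2 ⟨j, k, q, hjk, hjq, hkq, rfl⟩
  have h := UB' (κ := κ) hPC {i, j, k, p, q} {j, k, q} (by intro a; simp; tauto)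
    (by
      have : #({i, j, k, p, q} : Finset κ) ≤ 5 := card_le_five
      omega) (fun z => z i = z j ∧ z j = z k ∧ z p = z q) (by
      rintro z z' ⟨h1, h2, h2'⟩ ⟨h3, h4, h4'⟩ h5
      have hi : z i = z' i := h5 i (by simp) (by simp [hij, hik, hiq])
      have hp : z p = z' p := h5 p (by simp) (by simp [hpq, Ne.symm hjp, Ne.symm hkp])
      intro a ha
      simp only [mem_insert, mem_singleton] at ha
      rcases ha with rfl | rfl | rfl | rfl | rfl
      · exact hi
      · rw [← h1, ← h3, hi]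
      · rw [← h2, ← h1, ← h4, ← h3, hi]
      · exact hp
      · rw [← h2', ← h4', hp])
  rw [hT] at h
  exact le_of_eq_of_le cfs h

/-- radius three: doubling is injective -/
theorem up222_three (hPC : PC 3 ev) [Fintype G] (hodd : Odd (Fintype.card G))
    (hκ : Fintype.card κ = 8) (i j k l p q : κ) (hn : [i, j, k, l, p, q].Nodup) :
    #{z ∈ Zr ev κ | z i = z j ∧ z k = z l ∧ z p = z q} ≤
      3 ! * Fintype.card (ι × Bool) ^ 2 := by
  simp only [List.nodup_cons, List.mem_cons, List.not_mem_nil, or_false, not_or] at hn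
  obtain ⟨⟨hij, hik, hil, hip, hiq⟩, ⟨hjk, hjl, hjp, hjq⟩, ⟨hkl, hkp, hkq⟩, ⟨hlp, hlq⟩, hpq, -⟩ := hn
  obtain ⟨r, hr⟩ : ∃ r : κ → Prop, ∀ a, r a ↔ a ∈ ({i, j, k, l, p, q} : Finset κ) :=
    ⟨_, fun _ => Iff.rfl⟩
  have hS : #({i, j, k, l, p, q} : Finset κ) = 6 := by
    rw [card_insert_of_notMem, card_insert_of_notMem, card_insert_of_notMem,
      card_insert_of_notMem, card_insert_of_notMem, card_singleton]
    all_goals simp [*]
  have hB : Fintype.card {a // ¬ r a} = 2 := by
    rw [Fintype.card_subtype_compl, Fintype.card_subtype, hκ]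
    have : (univ.filter r) = ({i, j, k, l, p, q} : Finset κ) := by
      ext a
      simp only [mem_filter, mem_univ, true_and]
      exact hr a
    rw [this, hS]
  have hinj : Function.Injective (fun g : G => 2 • g) := by
    have : (Nat.card G).Coprime 2 := by
      rw [Nat.card_eq_fintype_card]
      exact Nat.Coprime.symm (Nat.coprime_two_left.2 hodd)
    exact this.nsmul_right_bijective.injective
  have hsplit : ∀ z : κ → ι × Bool, z i = z j → z k = z l → z p = z q →
      vs z = 2 • vs ![z i, z k, z p] + vs (fun a : {a // ¬ r a} => z a.1) := by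
    intro z h1 h2 h3
    rw [vs_split z r]
    congr 1
    have e1 : vs (fun a : {a // r a} => z a.1) =
        ∑ a ∈ ({i, j, k, l, p, q} : Finset κ), dv (z a) := by
      unfold vs
      rw [← Finset.sum_subtype _ (fun a => (hr a).symm) (fun a => dv (z a))]
    rw [e1, sum_insert, sum_insert, sum_insert, sum_insert, sum_insert, sum_singleton, ← h1, ← h2,
      ← h3]
    · unfold vs
      rw [Fin.sum_univ_three]
      simp only [Matrix.cons_val_zero, Matrix.cons_val_one, Matrix.cons_val_two,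
        Matrix.head_cons, Matrix.tail_cons, Matrix.cons_val]
      rw [two_nsmul]
      abel
    all_goals simp [*]
  have hN : #(univ : Finset ({a // ¬ r a} → ι × Bool)) = Fintype.card (ι × Bool) ^ 2 := by
    rw [card_univ, Fintype.card_fun, hB]
  rw [← hN]
  refine card_le_mul_card_image_of_maps_to
    (f := fun z : κ → ι × Bool => fun a : {a // ¬ r a} => z a.1) (fun _ _ => mem_univ _) _ ?_
  intro w _
  by_cases hne : ({z ∈ {z ∈ Zr ev κ | z i = z j ∧ z k = z l ∧ z p = z q} |
      (fun a : {a // ¬ r a} => z a.1) = w} : Finset (κ → ι × Bool)).Nonempty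
  · obtain ⟨z₀, hz₀⟩ := hne
    simp only [mem_filter, Zr, mem_univ, true_and] at hz₀
    obtain ⟨⟨⟨hn₀, he₀⟩, a1, a2, a3⟩, hw₀⟩ := hz₀
    have hsp₀ := hsplit z₀ a1 a2 a3
    rw [hw₀] at hsp₀
    have hle3 : ∀ t : Fin 3 → ι × Bool, nrm (vs t) ≤ 3 := fun t => by
      simpa using nrm_vs_le t
    have hnu : nrm (vs ![z₀ i, z₀ k, z₀ p]) = Fintype.card (Fin 3) := by
      have h1 := hle3 ![z₀ i, z₀ k, z₀ p]
      have h2 := nrm_vs_le w
      rw [hB] at h2
      have h3 := nrm_triangle (2 • vs ![z₀ i, z₀ k, z₀ p]) (vs w)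
      have h4 := nrm_triangle (vs ![z₀ i, z₀ k, z₀ p]) (vs ![z₀ i, z₀ k, z₀ p])
      rw [← two_nsmul] at h4
      rw [← hsp₀, hn₀, hκ] at h3
      rw [Fintype.card_fin]
      omega
    have hT := ((Pool.Agent.H59.GC.w ι (Fin 3)).2 _ hnu).2.1
    rw [Fintype.card_fin] at hT
    refine le_trans (card_le_card_of_injOn (fun z => ![z i, z k, z p]) ?_ ?_) hT
    · intro z hz
      simp only [coe_filter, mem_filter, Zr, mem_univ, true_and, Set.mem_ofPred_eq] at hz ⊢
      obtain ⟨⟨⟨hn, he⟩, b1, b2, b3⟩, hw⟩ := hz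
      have hsp := hsplit z b1 b2 b3
      rw [hw] at hsp
      refine pc_unique hPC (hle3 _) (hle3 _) (hinj ?_)
      simp only
      rw [hsp₀, map_add, map_nsmul] at he₀
      rw [hsp, map_add, map_nsmul] at he
      exact (eq_neg_of_add_eq_zero_left he).trans (eq_neg_of_add_eq_zero_left he₀).symm
    · intro z hz z' hz' hzz
      simp only [coe_filter, mem_filter, Zr, mem_univ, true_and, Set.mem_ofPred_eq] at hz hz'
      obtain ⟨⟨-, b1, b2, b3⟩, hw⟩ := hz
      obtain ⟨⟨-, c1, c2, c3⟩, hw'⟩ := hz'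
      have e0 : z i = z' i := congrFun hzz 0
      have e1 : z k = z' k := congrFun hzz 1
      have e2 : z p = z' p := congrFun hzz 2
      ext1 a
      by_cases ha : r a
      · have := (hr a).1 ha
        simp only [mem_insert, mem_singleton] at this
        rcases this with rfl | rfl | rfl | rfl | rfl | rfl
        · exact e0
        · rw [← b1, ← c1, e0]
        · exact e1
        · rw [← b2, ← c2, e1]
        · exact e2
        · rw [← b3, ← c3, e2]
      · exact (congrFun hw ⟨a, ha⟩).trans (congrFun hw' ⟨a, ha⟩).symm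
  · rw [not_nonempty_iff_eq_empty] at hne
    rw [hne, card_empty]
    exact Nat.zero_le _

/-- pattern `(2, 2, 2)` on `2 s + 2` letters -/
theorem b222 (hPC : PC s ev) [Fintype G] (hodd : Odd (Fintype.card G)) (hs : 3 ≤ s)
    (hκ : Fintype.card κ = 2 * s + 2) (i j k l p q : κ) (hn : [i, j, k, l, p, q].Nodup) :
    #{z ∈ Zr ev κ | z i = z j ∧ z k = z l ∧ z p = z q} ≤
      s ! * Fintype.card (ι × Bool) ^ (s - 1) := by
  by_cases h3 : s = 3
  · subst h3
    exact up222_three hPC hodd hκ i j k l p q hn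
  · have h := up222 hPC i j k l p q hn (by omega)
    rw [hκ, show 2 * s + 2 - s - 3 = s - 1 by omega] at h
    exact h

theorem b32 (hPC : PC s ev) (hs : 3 ≤ s)
    (hκ : Fintype.card κ = 2 * s + 2) (i j k p q : κ) (hn : [i, j, k, p, q].Nodup) :
    #{z ∈ Zr ev κ | z i = z j ∧ z j = z k ∧ z p = z q} ≤
      s ! * Fintype.card (ι × Bool) ^ (s - 1) := by
  have h := up32 hPC i j k p q hn (by omega)
  rw [hκ, show 2 * s + 2 - s - 3 = s - 1 by omega] at h
  exact h

theorem b22 (hPC : PC s ev) (hs : 3 ≤ s)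
    (hκ : Fintype.card κ = 2 * s + 2) (i j k l : κ) (hn : [i, j, k, l].Nodup) :
    #{z ∈ Zr ev κ | z i = z j ∧ z k = z l} ≤ s ! * Fintype.card (ι × Bool) ^ s := by
  have h := up22 hPC i j k l hn (by omega)
  rw [hκ, show 2 * s + 2 - s - 2 = s by omega] at h
  exact h

theorem c22 (hPC : PC s ev) (hs : 3 ≤ s)
    (hκ : Fintype.card κ = 2 * s + 1) (i j k l : κ) (hn : [i, j, k, l].Nodup) :
    #{z ∈ Zr ev κ | z i = z j ∧ z k = z l} ≤ s ! * Fintype.card (ι × Bool) ^ (s - 1) := by
  have h := up22 hPC i j k l hn (by omega)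
  rw [hκ, show 2 * s + 1 - s - 2 = s - 1 by omega] at h
  exact h

/-! ### Words that are not reduced -/

/-- the opposite direction -/
def opp (x : ι × Bool) : ι × Bool := (x.1, !x.2)

theorem opp_ne (x : ι × Bool) : x ≠ opp x := by
  obtain ⟨i, b⟩ := x
  unfold opp
  cases b <;> simp

theorem nonreduced {w : κ → ι × Bool} (h : nrm (vs w) ≠ Fintype.card κ) :
    ∃ a b, w a = opp (w b) := by
  by_contra hcon
  push Not at hcon
  apply h
  have h2 := sum_cnt w
  rw [Fintype.sum_prod_type] at h2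
  rw [← h2]
  unfold nrm
  refine sum_congr rfl fun i _ => ?_
  rw [vs_apply]
  simp only [Fintype.sum_bool]
  have h3 : cnt w (i, true) = 0 ∨ cnt w (i, false) = 0 := by
    by_contra h4
    push Not at h4
    obtain ⟨h5, h6⟩ := h4
    unfold cnt at h5 h6
    obtain ⟨a, ha⟩ := card_pos.1 (Nat.pos_of_ne_zero h5)
    obtain ⟨b, hb⟩ := card_pos.1 (Nat.pos_of_ne_zero h6)
    simp only [mem_filter, mem_univ, true_and] at ha hb
    apply hcon a b
    rw [ha, hb]
    rfl
  omega

theorem card_opp (i j k l : κ) (hn : [i, j, k, l].Nodup) (a b : κ) :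
    #(univ.filter fun w : κ → ι × Bool => (w i = w j ∧ w k = w l) ∧ w a = opp (w b)) ≤
      Fintype.card (ι × Bool) ^ (Fintype.card κ - 3) := by
  simp only [List.nodup_cons, List.mem_cons, List.not_mem_nil, or_false, not_or] at hn
  obtain ⟨⟨hij, hik, hil⟩, ⟨hjk, hjl⟩, hkl, -⟩ := hn
  obtain ⟨ρ, hρ⟩ : ∃ ρ : κ → κ, ∀ c, ρ c = if c = j then i else if c = l then k else c :=
    ⟨_, fun _ => rfl⟩
  have hρj : ρ j = i := by rw [hρ, if_pos rfl]
  have hρl : ρ l = k := by rw [hρ, if_neg (Ne.symm hjl), if_pos rfl]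
  have hρo : ∀ c, c ≠ j → c ≠ l → ρ c = c := fun c h1 h2 => by rw [hρ, if_neg h1, if_neg h2]
  have hρn : ∀ c, ρ c ≠ j ∧ ρ c ≠ l := by
    intro c
    by_cases h1 : c = j
    · rw [h1, hρj]
      exact ⟨hij, hil⟩
    · by_cases h2 : c = l
      · rw [h2, hρl]
        exact ⟨Ne.symm hjk, hkl⟩
      · rw [hρo c h1 h2]
        exact ⟨h1, h2⟩
  have hw : ∀ w : κ → ι × Bool, w i = w j → w k = w l → ∀ c, w c = w (ρ c) := by
    intro w h1 h2 c
    by_cases h3 : c = j
    · rw [h3, hρj, h1]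
    · by_cases h4 : c = l
      · rw [h4, hρl, h2]
      · rw [hρo c h3 h4]
  by_cases hab : ρ a = ρ b
  · refine le_trans (le_of_eq ?_) (Nat.zero_le _)
    rw [card_eq_zero, filter_eq_empty_iff]
    rintro w _ ⟨⟨h1, h2⟩, h3⟩
    rw [hw w h1 h2 a, hab, ← hw w h1 h2 b] at h3
    exact opp_ne _ h3
  · have hT : #({j, l, ρ a} : Finset κ) = 3 :=
      card_eq_three.2 ⟨j, l, ρ a, hjl, (hρn a).1.symm, (hρn a).2.symm, rfl⟩
    rw [← hT]
    refine card_det _ _ ?_
    intro w hw1 w' hw2 hagree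
    simp only [mem_filter, mem_univ, true_and] at hw1 hw2
    obtain ⟨⟨h1, h2⟩, h3⟩ := hw1
    obtain ⟨⟨h1', h2'⟩, h3'⟩ := hw2
    have hb : w (ρ b) = w' (ρ b) := hagree _ (by
      simp only [mem_insert, mem_singleton, not_or]
      exact ⟨(hρn b).1, (hρn b).2, fun h => hab h.symm⟩)
    have ha : w (ρ a) = w' (ρ a) := by
      rw [← hw w h1 h2 a, ← hw w' h1' h2' a, h3, h3', hw w h1 h2 b, hw w' h1' h2' b, hb]
    have hall : ∀ c, w (ρ c) = w' (ρ c) := by
      intro c
      by_cases h4 : ρ c = ρ a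
      · rw [h4, ha]
      · refine hagree _ ?_
        simp only [mem_insert, mem_singleton, not_or]
        exact ⟨(hρn c).1, (hρn c).2, h4⟩
    ext1 c
    rw [hw w h1 h2 c, hw w' h1' h2' c, hall c]

theorem card_nonred (i j k l : κ) (hn : [i, j, k, l].Nodup) :
    #(univ.filter fun w : κ → ι × Bool => (w i = w j ∧ w k = w l) ∧
      nrm (vs w) ≠ Fintype.card κ) ≤
      (Fintype.card κ) ^ 2 * Fintype.card (ι × Bool) ^ (Fintype.card κ - 3) := by
  have h1 : (univ.filter fun w : κ → ι × Bool => (w i = w j ∧ w k = w l) ∧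
      nrm (vs w) ≠ Fintype.card κ) ⊆ (univ : Finset (κ × κ)).biUnion fun c =>
        univ.filter fun w : κ → ι × Bool => (w i = w j ∧ w k = w l) ∧ w c.1 = opp (w c.2) := by
    intro w hw
    simp only [mem_filter, mem_univ, true_and] at hw
    obtain ⟨a, b, hab⟩ := nonreduced hw.2
    rw [mem_biUnion]
    refine ⟨(a, b), mem_univ _, ?_⟩
    simp only [mem_filter, mem_univ, true_and]
    exact ⟨hw.1, hab⟩
  refine (card_le_card h1).trans (card_biUnion_le.trans ?_)
  refine (sum_le_sum fun c _ => card_opp i j k l hn c.1 c.2).trans (le_of_eq ?_)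
  rw [sum_const, card_univ, Fintype.card_prod, smul_eq_mul]
  ring

/-! ### The lower bound -/

theorem ext_bound {α β : Type} [Fintype α] [Fintype β] (F : Finset (α → ι × Bool))
    (Q : (α ⊕ β → ι × Bool) → Prop)
    (h : ∀ w ∈ F, ∃ u : β → ι × Bool, Sum.elim w u ∈ Zr ev (α ⊕ β) ∧ Q (Sum.elim w u)) :
    #F ≤ #{z ∈ Zr ev (α ⊕ β) | Q z} := by
  have h2 : #F ≤ #(({z ∈ Zr ev (α ⊕ β) | Q z}).image fun z => fun a : α => z (Sum.inl a)) := by
    refine card_le_card fun w hw => ?_
    obtain ⟨u, h1, h2⟩ := h w hw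
    rw [mem_image]
    exact ⟨Sum.elim w u, mem_filter.2 ⟨h1, h2⟩, rfl⟩
  exact h2.trans card_image_le

theorem ell_le_nrm (v : ι → ℤ) : ell v ≤ nrm v := by
  have := exc_add v
  omega

theorem low22 (hPC : PC s ev) [Fintype G] (hodd : Odd (Fintype.card G)) (hs : 3 ≤ s)
    (hκ : Fintype.card κ = 2 * s + 2) (i j k l : κ) (hn : [i, j, k, l].Nodup) :
    s ! * Fintype.card (ι × Bool) ^ s ≤ #{z ∈ Zr ev κ | z i = z j ∧ z k = z l} +
      s ! * (((s + 2) ^ 2 + s ! + s !) * Fintype.card (ι × Bool) ^ (s - 1)) := by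
  have hS : #({i, j, k, l} : Finset κ) ≤ 4 := card_le_four
  obtain ⟨A, hSA, -, hA⟩ := exists_subsuperset_card_eq (subset_univ ({i, j, k, l} : Finset κ))
    (show #({i, j, k, l} : Finset κ) ≤ s + 2 by omega) (by rw [card_univ]; omega)
  obtain ⟨p, hp⟩ : ∃ p : κ → Prop, ∀ k, p k ↔ k ∈ A := ⟨_, fun _ => Iff.rfl⟩
  have hcA : Fintype.card {k // p k} = s + 2 := by
    rw [← hA, Fintype.card_subtype]
    congr 1
    ext k
    simp [hp]
  have hcB : Fintype.card {k // ¬ p k} = s := by
    rw [Fintype.card_subtype_compl, hcA]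
    omega
  have hpi : p i := (hp i).2 (hSA (by simp))
  have hpj : p j := (hp j).2 (hSA (by simp))
  have hpk : p k := (hp k).2 (hSA (by simp))
  have hpl : p l := (hp l).2 (hSA (by simp))
  have hnA : [(⟨i, hpi⟩ : {k // p k}), ⟨j, hpj⟩, ⟨k, hpk⟩, ⟨l, hpl⟩].Nodup := by
    simpa using hn
  generalize hi' : (⟨i, hpi⟩ : {k // p k}) = i' at hnA
  generalize hj' : (⟨j, hpj⟩ : {k // p k}) = j' at hnA
  generalize hk' : (⟨k, hpk⟩ : {k // p k}) = k' at hnA
  generalize hl' : (⟨l, hpl⟩ : {k // p k}) = l' at hnA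
  -- the short vector of a word
  obtain ⟨r, hr⟩ : ∃ r : ({k // p k} → ι × Bool) → (ι → ℤ), ∀ w, nrm (r w) ≤ s ∧
      ev (r w) = ev (vs w) := by
    choose r hr using fun w : {k // p k} → ι × Bool => (hPC (ev (vs w))).exists
    exact ⟨r, hr⟩
  set N := Fintype.card (ι × Bool) with hN
  set W : Finset ({k // p k} → ι × Bool) := univ.filter fun w => w i' = w j' ∧ w k' = w l' with hW
  have hWc : N ^ s ≤ #W := by
    have := card_pat (D := ι × Bool) i' j' k' l' hnA
    rw [hcA, show s + 2 - 2 = s by omega] at this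
    exact this.trans_eq cfi
  set Gd := W.filter fun w => nrm (vs w) = s + 2 ∧ nrm (r w) = s ∧ ell (r w) = s with hgood
  set B1 := W.filter fun w => nrm (vs w) ≠ s + 2 with hB1
  set B2 := W.filter fun w => nrm (vs w) = s + 2 ∧ nrm (r w) ≠ s with hB2
  set B3 := W.filter fun w => nrm (vs w) = s + 2 ∧ nrm (r w) = s ∧ ell (r w) ≠ s with hB3
  have hcover : #W ≤ #Gd + (#B1 + (#B2 + #B3)) := by
    have h1 : W ⊆ Gd ∪ (B1 ∪ (B2 ∪ B3)) := by
      intro w hw
      simp only [hgood, hB1, hB2, hB3, mem_union, mem_filter]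
      by_cases a1 : nrm (vs w) = s + 2
      · by_cases a2 : nrm (r w) = s
        · by_cases a3 : ell (r w) = s
          · exact Or.inl ⟨hw, a1, a2, a3⟩
          · exact Or.inr (Or.inr (Or.inr ⟨hw, a1, a2, a3⟩))
        · exact Or.inr (Or.inr (Or.inl ⟨hw, a1, a2⟩))
      · exact Or.inr (Or.inl ⟨hw, a1⟩)
    refine (card_le_card h1).trans ((card_union_le _ _).trans ?_)
    refine Nat.add_le_add_left ((card_union_le _ _).trans ?_) _
    exact Nat.add_le_add_left (card_union_le _ _) _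
  -- facts on differences
  have hdiff : ∀ w : {k // p k} → ι × Bool, nrm (vs w) = s + 2 →
      ev (vs w - r w) = 0 ∧ 2 * s + 1 ≤ nrm (vs w - r w) ∧
      nrm (vs w - r w) ≤ s + 2 + nrm (r w) ∧ Even (nrm (vs w - r w) + (s + 2) + nrm (r w)) := by
    intro w hw
    have hne : vs w ≠ r w := by
      intro h
      have := (hr w).1
      rw [← h, hw] at this
      omega
    obtain ⟨h1, h2, h3⟩ := (Pool.Agent.H2.GC.l ι G s ev hPC).2 (vs w) (r w) hne (hr w).2.symm
    rw [hw] at h2 h3
    exact ⟨by rw [map_sub, (hr w).2, sub_self], h1, h2, h3⟩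
  -- B1
  have hb1 : #B1 ≤ (s + 2) ^ 2 * N ^ (s - 1) := by
    have h := card_nonred (ι := ι) i' j' k' l' hnA
    rw [hcA, show s + 2 - 3 = s - 1 by omega] at h
    refine le_trans (card_le_card ?_) h
    intro w hw
    simp only [hB1, hW, mem_filter, mem_univ, true_and] at hw ⊢
    exact hw
  -- B2
  have hb2 : #B2 ≤ s ! * N ^ (s - 1) := by
    have hc : Fintype.card ({k // p k} ⊕ Fin (s - 1)) = 2 * s + 1 := by
      rw [Fintype.card_sum, hcA, Fintype.card_fin]
      omega
    have h := c22 (κ := {k // p k} ⊕ Fin (s - 1)) hPC hs hc (Sum.inl i') (Sum.inl j') (Sum.inl k')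
      (Sum.inl l') (by simpa using hnA)
    refine le_trans (ext_bound (ev := ev) (β := Fin (s - 1)) B2 (fun z =>
      z (Sum.inl i') = z (Sum.inl j') ∧ z (Sum.inl k') = z (Sum.inl l')) ?_)
      (le_of_eq_of_le (cfs) h)
    intro w hw
    simp only [hB2, hW, mem_filter, mem_univ, true_and] at hw
    obtain ⟨hpat, h1, h2⟩ := hw
    obtain ⟨d1, d2, d3, d4⟩ := hdiff w h1
    have hrn : nrm (r w) = s - 1 := by
      have := (hr w).1
      omega
    obtain ⟨u, hu⟩ := ((Pool.Agent.H59.GC.w ι (Fin (s - 1))).2 (-r w) (by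
      rw [nrm_neg, hrn, Fintype.card_fin])).1
    refine ⟨u, ?_, by simpa using hpat⟩
    simp only [Zr, mem_filter, mem_univ, true_and]
    rw [vs_sum, hu, ← sub_eq_add_neg, hc]
    exact ⟨by omega, d1⟩
  -- B3
  have hb3 : #B3 ≤ s ! * N ^ (s - 1) := by
    have hc : Fintype.card ({k // p k} ⊕ Fin s) = 2 * s + 2 := by
      rw [Fintype.card_sum, hcA, Fintype.card_fin]
      omega
    have h01 : (⟨0, by omega⟩ : Fin s) ≠ ⟨1, by omega⟩ := by
      intro h
      simp at h
    have h := b222 (κ := {k // p k} ⊕ Fin s) hPC hodd hs hc (Sum.inl i') (Sum.inl j') (Sum.inl k')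
      (Sum.inl l') (Sum.inr ⟨0, by omega⟩) (Sum.inr ⟨1, by omega⟩) (by
        simp only [List.nodup_cons, List.mem_cons, List.not_mem_nil, or_false, not_or,
          Sum.inl.injEq, Sum.inr.injEq] at hnA ⊢
        obtain ⟨⟨a1, a2, a3⟩, ⟨a4, a5⟩, a6, -⟩ := hnA
        simp [a1, a2, a3, a4, a5, a6])
    refine le_trans (ext_bound (ev := ev) (β := Fin s) B3 (fun z =>
      z (Sum.inl i') = z (Sum.inl j') ∧ z (Sum.inl k') = z (Sum.inl l') ∧
        z (Sum.inr (⟨0, by omega⟩ : Fin s)) = z (Sum.inr (⟨1, by omega⟩ : Fin s)))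
      ?_) (le_of_eq_of_le (cfs) h)
    intro w hw
    simp only [hB3, hW, mem_filter, mem_univ, true_and] at hw
    obtain ⟨hpat, h1, h2, h3⟩ := hw
    obtain ⟨d1, d2, d3, d4⟩ := hdiff w h1
    obtain ⟨u, hu, hu'⟩ := ((Pool.Agent.H59.GC.w ι (Fin s)).2 (-r w) (by
      rw [nrm_neg, h2, Fintype.card_fin])).2.2.2.2.2.1 _ _ h01 (by
        rw [ell_neg, Fintype.card_fin]
        have := ell_le_nrm (r w)
        omega)
    refine ⟨u, ?_, hpat.1, hpat.2, hu'⟩
    simp only [Zr, mem_filter, mem_univ, true_and]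
    rw [vs_sum, hu, ← sub_eq_add_neg, hc]
    refine ⟨?_, d1⟩
    rw [h2] at d3 d4
    obtain ⟨e, he⟩ := d4
    omega
  -- Gd words
  have hg : s ! * #Gd ≤ #{z ∈ Zr ev κ | z i = z j ∧ z k = z l} := by
    have h1 : s ! * #Gd ≤ #{z ∈ {z ∈ Zr ev κ | z i = z j ∧ z k = z l} |
        (fun a : {k // p k} => z a.1) ∈ Gd} := by
      refine mul_card_image_le_card_of_maps_to
        (f := fun z : κ → ι × Bool => fun a : {k // p k} => z a.1) ?_ _ ?_
      · intro z hz
        exact (mem_filter.1 hz).2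
      · intro w hw
        have hw' := hw
        simp only [hgood, hW, mem_filter, mem_univ, true_and] at hw'
        obtain ⟨hpat, g1, g2, g3⟩ := hw'
        have hT := ((Pool.Agent.H59.GC.w ι {k // ¬ p k}).2 (-r w) (by
          rw [nrm_neg, g2, hcB])).2.2.1 (by rw [ell_neg, g3, hcB])
        rw [hcB] at hT
        rw [← hT]
        refine card_le_card_of_injOn (fun u => fun a : κ =>
          if ha : p a then w ⟨a, ha⟩ else u ⟨a, ha⟩) ?_ ?_
        · intro u hu
          simp only [coe_filter, mem_filter, mem_univ, true_and, Set.mem_ofPred_eq] at hu ⊢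
          have e1 : (fun a : {k // p k} =>
              if ha : p a.1 then w ⟨a.1, ha⟩ else u ⟨a.1, ha⟩) = w := by
            ext1 a
            rw [dif_pos a.2]
          have e2 : (fun a : {k // ¬ p k} =>
              if ha : p a.1 then w ⟨a.1, ha⟩ else u ⟨a.1, ha⟩) = u := by
            ext1 a
            rw [dif_neg a.2]
          obtain ⟨d1, d2, d3, d4⟩ := hdiff w g1
          refine ⟨⟨⟨?_, ?_⟩, ?_⟩, e1⟩
          · simp only [Zr, mem_filter, mem_univ, true_and]
            rw [vs_split _ p, e1, e2, hu, ← sub_eq_add_neg, hκ]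
            refine ⟨?_, d1⟩
            rw [g2] at d3 d4
            obtain ⟨e, he⟩ := d4
            omega
          · rw [dif_pos hpi, dif_pos hpj, dif_pos hpk, dif_pos hpl, hi', hj', hk', hl']
            exact hpat
          · rw [e1]
            exact hw
        · intro u hu u' hu' huu
          ext1 a
          have := congrFun huu a.1
          simp only [dif_neg a.2] at this
          exact this
    exact h1.trans (card_le_card (filter_subset _ _))
  have hfin : N ^ s ≤ #Gd + ((s + 2) ^ 2 + s ! + s !) * N ^ (s - 1) := by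
    calc N ^ s ≤ #Gd + (#B1 + (#B2 + #B3)) := hWc.trans hcover
      _ ≤ #Gd + ((s + 2) ^ 2 * N ^ (s - 1) + (s ! * N ^ (s - 1) + s ! * N ^ (s - 1))) := by
        gcongr
      _ = _ := by ring
  calc s ! * N ^ s ≤ s ! * (#Gd + ((s + 2) ^ 2 + s ! + s !) * N ^ (s - 1)) :=
        Nat.mul_le_mul_left _ hfin
    _ = s ! * #Gd + s ! * (((s + 2) ^ 2 + s ! + s !) * N ^ (s - 1)) := by ring
    _ ≤ _ := Nat.add_le_add_right hg _

/-- module Z -/
theorem z : T_Z := by
  intro s hs
  refine ⟨2 ^ (s - 1) * (s ! * ((s + 2) ^ 2 + s ! + s ! + 1)), ?_⟩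
  intro ι _ G _ _ ev hPC hodd hm κ _
  have hD : Fintype.card (ι × Bool) = 2 * Fintype.card ι := by
    rw [Fintype.card_prod, Fintype.card_bool, mul_comm]
  have hup : ∀ n : ℕ, n ≤ s ! * Fintype.card (ι × Bool) ^ (s - 1) →
      (n : ℝ) ≤ 2 ^ (s - 1) * (s ! * ((s + 2) ^ 2 + s ! + s ! + 1)) *
        (Fintype.card ι : ℝ) ^ (s - 1) := by
    intro n hn
    have h1 : (n : ℝ) ≤ (s ! : ℝ) * (2 * (Fintype.card ι : ℝ)) ^ (s - 1) := by
      rw [hD] at hn
      exact_mod_cast hn
    refine h1.trans ?_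
    rw [mul_pow]
    have h2 : (0 : ℝ) ≤ (Fintype.card ι : ℝ) ^ (s - 1) := by positivity
    have h3 : (1 : ℝ) ≤ (s + 2) ^ 2 + s ! + s ! + 1 := by
      have : (0 : ℝ) ≤ (s ! : ℝ) := by positivity
      have : (0 : ℝ) ≤ ((s : ℝ) + 2) ^ 2 := by positivity
      linarith
    calc (s ! : ℝ) * (2 ^ (s - 1) * (Fintype.card ι : ℝ) ^ (s - 1)) =
          (2 ^ (s - 1) * (s ! * 1)) * (Fintype.card ι : ℝ) ^ (s - 1) := by ring
      _ ≤ _ := by gcongr
  refine ⟨?_, ?_⟩
  · intro hκ i j k l p q hn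
    have hn4 : [i, j, k, l].Nodup := by
      simp only [List.nodup_cons, List.mem_cons, List.not_mem_nil, or_false, not_or] at hn ⊢
      tauto
    have hn5 : [i, j, k, p, q].Nodup := by
      simp only [List.nodup_cons, List.mem_cons, List.not_mem_nil, or_false, not_or] at hn ⊢
      tauto
    refine ⟨?_, hup _ (b222 hPC hodd hs hκ i j k l p q hn), hup _ (b32 hPC hs hκ i j k p q hn5)⟩
    have h1 := b22 hPC hs hκ i j k l hn4
    have h2 := low22 hPC hodd hs hκ i j k l hn4
    have h3 : (#{z ∈ Zr ev κ | z i = z j ∧ z k = z l} : ℝ) ≤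
        s ! * (2 * (Fintype.card ι : ℝ)) ^ s := by
      rw [hD] at h1
      exact_mod_cast h1
    have h4 : (s ! : ℝ) * (2 * (Fintype.card ι : ℝ)) ^ s ≤
        (#{z ∈ Zr ev κ | z i = z j ∧ z k = z l} : ℝ) +
        s ! * (((s + 2) ^ 2 + s ! + s !) * (2 * (Fintype.card ι : ℝ)) ^ (s - 1)) := by
      rw [hD] at h2
      exact_mod_cast h2
    have h5 : (s ! : ℝ) * (((s + 2) ^ 2 + s ! + s !) * (2 * (Fintype.card ι : ℝ)) ^ (s - 1)) ≤
        2 ^ (s - 1) * (s ! * ((s + 2) ^ 2 + s ! + s ! + 1)) * (Fintype.card ι : ℝ) ^ (s - 1) := by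
      rw [mul_pow]
      calc (s ! : ℝ) * (((s + 2) ^ 2 + s ! + s !) * (2 ^ (s - 1) *
            (Fintype.card ι : ℝ) ^ (s - 1))) = 2 ^ (s - 1) * (s ! * ((s + 2) ^ 2 + s ! + s ! + 0)) *
            (Fintype.card ι : ℝ) ^ (s - 1) := by ring
        _ ≤ _ := by
          gcongr
          norm_num
    rw [abs_le]
    have h6 : 0 ≤ 2 ^ (s - 1) * ((s ! : ℝ) * ((s + 2) ^ 2 + s ! + s ! + 1)) *
      (Fintype.card ι : ℝ) ^ (s - 1) := by positivity
    exact ⟨by linarith, by linarith⟩
  · intro hκ i j k l hn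
    exact hup _ (c22 hPC hs hκ i j k l hn)

end

end Pool.Agent.H59.GC
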