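import Pool.Agent.H23.GC.Targets

/-!
Words of a vector (module W).
-/

set_option autoImplicit false
set_option linter.unusedSectionVars false
set_option linter.unusedSimpArgs false
set_option linter.unusedVariables false

open Finset Pool.Agent.H23.GW Pool.Agent.H23.GC
open scoped Classical Nat

namespace Pool.Agent.H59.GC

noncomputable section

variable {ι : Type} [Fintype ι] {κ : Type} [Fintype κ]

/-- number of occurrences of a direction in a word -/
def cnt {D κ : Type} [Fintype κ] (w : κ → D) (x : D) : ℕ := #{k | w k = x}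

/-- number of occurrences of a letter on the positions `p` -/
def cntOn {D κ : Type} [Fintype κ] (p : κ → Prop) (w : κ → D) (x : D) : ℕ := #{k | p k ∧ w k = x}

/-- multiplicity of a direction in a vector -/
def mu (v : ι → ℤ) (x : ι × Bool) : ℕ := if x.2 then (v x.1).toNat else (-v x.1).toNat

theorem cnt_eq_sum {D : Type} (w : κ → D) (x : D) : cnt w x = ∑ k, if w k = x then 1 else 0 := by
  unfold cnt
  rw [card_filter]

theorem sum_cnt {D : Type} [Fintype D] (w : κ → D) : ∑ x, cnt w x = Fintype.card κ := by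
  simp only [cnt_eq_sum]
  rw [sum_comm]
  simp

theorem dv_apply (x : ι × Bool) (i : ι) :
    dv x i = (if x = (i, true) then 1 else 0) - (if x = (i, false) then 1 else 0) := by
  obtain ⟨j, b⟩ := x
  unfold dv
  by_cases h : j = i
  · subst h
    cases b <;> simp
  · cases b <;> simp [h, Pi.single_apply, Ne.symm h]

theorem vs_apply (w : κ → ι × Bool) (i : ι) :
    vs w i = (cnt w (i, true) : ℤ) - cnt w (i, false) := by
  unfold vs
  rw [Finset.sum_apply, cnt_eq_sum, cnt_eq_sum]
  push_cast
  rw [← sum_sub_distrib]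
  exact sum_congr rfl fun k _ => dv_apply _ _

theorem sum_mu (v : ι → ℤ) : ∑ x, mu v x = nrm v := by
  rw [Fintype.sum_prod_type]
  unfold nrm
  refine sum_congr rfl fun i _ => ?_
  simp only [Fintype.sum_bool, mu, if_true]
  have : (false = true) = False := by simp
  simp only [this, if_false]
  omega

theorem nrm_vs_le (w : κ → ι × Bool) : nrm (vs w) ≤ Fintype.card κ := by
  rw [← sum_cnt w, Fintype.sum_prod_type]
  unfold nrm
  refine sum_le_sum fun i _ => ?_
  rw [vs_apply]
  simp only [Fintype.sum_bool]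
  omega

theorem cnt_of_vs {w : κ → ι × Bool} {v : ι → ℤ} (h : vs w = v) (hv : nrm v = Fintype.card κ)
    (x : ι × Bool) : cnt w x = mu v x := by
  have h1 : ∑ i, (v i).natAbs = ∑ i, (cnt w (i, true) + cnt w (i, false)) := by
    have h2 := sum_cnt w
    rw [Fintype.sum_prod_type] at h2
    simp only [Fintype.sum_bool] at h2
    rw [h2, ← hv]
    rfl
  have h3 : ∀ i ∈ (univ : Finset ι), (v i).natAbs ≤ cnt w (i, true) + cnt w (i, false) := by
    intro i _
    rw [← h, vs_apply]
    omega
  have h4 := (sum_eq_sum_iff_of_le h3).1 h1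
  obtain ⟨i, b⟩ := x
  have h5 := h4 i (mem_univ _)
  have h6 : v i = (cnt w (i, true) : ℤ) - cnt w (i, false) := by rw [← h, vs_apply]
  cases b
  · simp only [mu]
    simp
    omega
  · simp only [mu]
    simp
    omega

theorem vs_of_cnt {w : κ → ι × Bool} {v : ι → ℤ} (h : ∀ x, cnt w x = mu v x) : vs w = v := by
  ext i
  rw [vs_apply, h, h]
  simp [mu]

theorem vs_iff {v : ι → ℤ} (hv : nrm v = Fintype.card κ) (w : κ → ι × Bool) :
    vs w = v ↔ ∀ x, cnt w x = mu v x :=
  ⟨fun h => cnt_of_vs h hv, vs_of_cnt⟩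

/-! ### Words with prescribed counts -/

section Count

variable {D : Type} [Fintype D]

theorem cntOn_zero {p : κ → Prop} {a : κ → D} {x : D} (h : ∀ k, p k → a k ≠ x) :
    cntOn p a x = 0 := by
  unfold cntOn
  rw [card_eq_zero, filter_eq_empty_iff]
  rintro k _ ⟨h1, h2⟩
  exact h k h1 h2

theorem cntOn_le {p : κ → Prop} {a : κ → D} {x : D} (S : Finset κ)
    (h : ∀ k, p k → a k = x → k ∈ S) : cntOn p a x ≤ #S := by
  unfold cntOn
  refine card_le_card fun k hk => ?_
  simp only [mem_filter, mem_univ, true_and] at hk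
  exact h k hk.1 hk.2

theorem exists_count (c : D → ℕ) (h : ∑ x, c x = Fintype.card κ) :
    ∃ w : κ → D, ∀ x, cnt w x = c x := by
  have e : κ ≃ Σ x : D, Fin (c x) := by
    apply Fintype.equivOfCardEq
    rw [Fintype.card_sigma, ← h]
    simp
  refine ⟨fun k => (e k).1, fun x => ?_⟩
  unfold cnt
  have h1 : #{k | (e k).1 = x} = #{z : Σ x : D, Fin (c x) | z.1 = x} := by
    refine card_bij (fun k _ => e k) ?_ ?_ ?_
    · intro k hk
      simpa using hk
    · intro a _ b _ hab
      exact e.injective hab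
    · intro z hz
      exact ⟨e.symm z, by simpa using hz, by simp⟩
  rw [h1]
  have h2 : #{z : Σ x : D, Fin (c x) | z.1 = x} = Fintype.card (Fin (c x)) := by
    rw [← Finset.card_univ]
    symm
    refine card_bij (fun j _ => ⟨x, j⟩) ?_ ?_ ?_
    · intro j _
      simp
    · intro a _ b _ hab
      simpa using hab
    · rintro ⟨y, j⟩ hz
      simp at hz
      subst hz
      exact ⟨j, mem_univ _, rfl⟩
  rw [h2, Fintype.card_fin]

/-- splitting a count over a predicate -/
theorem cnt_split (w : κ → D) (p : κ → Prop) (x : D) :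
    cnt w x = #{k | p k ∧ w k = x} + cnt (fun k : {k // ¬ p k} => w k) x := by
  rw [cnt_eq_sum, cnt_eq_sum, card_filter, ← Fintype.sum_subtype_add_sum_subtype p]
  congr 1
  rw [← Fintype.sum_subtype_add_sum_subtype p
    (fun k => if p k ∧ w k = x then (1 : ℕ) else 0)]
  have h1 : ∑ i : {x // ¬ p x}, (if p i.1 ∧ w i.1 = x then (1 : ℕ) else 0) = 0 := by
    apply sum_eq_zero
    intro i _
    simp [i.2]
  rw [h1, add_zero]
  refine sum_congr rfl fun i _ => ?_
  simp [i.2]

theorem exists_ext (c : D → ℕ) (h : ∑ x, c x = Fintype.card κ) (p : κ → Prop) (a : κ → D)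
    (hp : ∀ x, cntOn p a x ≤ c x) :
    ∃ w : κ → D, (∀ x, cnt w x = c x) ∧ ∀ k, p k → w k = a k := by
  unfold cntOn at hp
  have h1 : ∑ x, (c x - #{k | p k ∧ a k = x}) = Fintype.card {k // ¬ p k} := by
    have h2 : ∑ x, (c x - #{k | p k ∧ a k = x}) + ∑ x, #{k | p k ∧ a k = x} =
        Fintype.card κ := by
      rw [← h, ← sum_add_distrib]
      exact sum_congr rfl fun x _ => Nat.sub_add_cancel (hp x)
    have h3 := sum_cnt a
    have h4 : ∀ x, cnt a x = #{k | p k ∧ a k = x} +
      cnt (fun k : {k // ¬ p k} => a k) x := cnt_split a p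
    simp only [h4] at h3
    rw [sum_add_distrib, sum_cnt] at h3
    omega
  obtain ⟨w', hw'⟩ := exists_count (κ := {k // ¬ p k}) _ h1
  refine ⟨fun k => if hk : p k then a k else w' ⟨k, hk⟩, fun x => ?_, fun k hk => by simp [hk]⟩
  rw [cnt_split _ p]
  have h5 : (fun k : {k // ¬ p k} => if hk : p k.1 then a k.1 else w' ⟨k.1, hk⟩) = w' := by
    ext1 k
    simp [k.2]
  rw [h5, hw']
  have h6 : #{k | p k ∧ (if hk : p k then a k else w' ⟨k, hk⟩) = x} = #{k | p k ∧ a k = x} := by
    congr 1
    ext k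
    simp only [mem_filter, mem_univ, true_and]
    constructor
    · rintro ⟨h1, h2⟩
      simp [h1] at h2
      exact ⟨h1, h2⟩
    · rintro ⟨h1, h2⟩
      simp [h1, h2]
  rw [h6]
  have := hp x
  omega

theorem exists_perm {w w' : κ → D} (h : ∀ x, cnt w x = cnt w' x) :
    ∃ σ : Equiv.Perm κ, w' ∘ σ = w := by
  have e : ∀ x, {k // w k = x} ≃ {k // w' k = x} := by
    intro x
    apply Fintype.equivOfCardEq
    have := h x
    unfold cnt at this
    rw [Fintype.card_subtype, Fintype.card_subtype]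
    exact this
  refine ⟨(Equiv.sigmaFiberEquiv w).symm.trans
    ((Equiv.sigmaCongrRight e).trans (Equiv.sigmaFiberEquiv w')), ?_⟩
  ext1 k
  simp only [Function.comp_apply, Equiv.trans_apply]
  exact (e (w k) ⟨k, rfl⟩).2

theorem card_le (c : D → ℕ) :
    #{w : κ → D | ∀ x, cnt w x = c x} ≤ (Fintype.card κ)! := by
  by_cases hne : ∃ w₀ : κ → D, ∀ x, cnt w₀ x = c x
  · obtain ⟨w₀, h0⟩ := hne
    rw [← Fintype.card_perm, ← Finset.card_univ]
    refine card_le_card_of_surjOn (fun σ : Equiv.Perm κ => w₀ ∘ σ) ?_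
    intro w hw
    simp only [coe_filter, mem_univ, true_and, Set.mem_ofPred_eq] at hw
    obtain ⟨σ, hσ⟩ := exists_perm (w := w) (w' := w₀) (fun x => by rw [hw, h0])
    exact ⟨σ, by simp, hσ⟩
  · have : ({w : κ → D | ∀ x, cnt w x = c x} : Finset _) = ∅ := by
      rw [filter_eq_empty_iff]
      intro w _ hw
      exact hne ⟨w, hw⟩
    rw [this, card_empty]
    exact Nat.zero_le _

theorem inj_of_le {w : κ → D} (h : ∀ x, cnt w x ≤ 1) : Function.Injective w := by
  intro a b hab
  have h1 := h (w a)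
  unfold cnt at h1
  rw [card_le_one] at h1
  exact h1 a (by simp) b (by simp [hab])

theorem cnt_comp_perm (w : κ → D) (σ : Equiv.Perm κ) (x : D) : cnt (w ∘ σ) x = cnt w x := by
  rw [cnt_eq_sum, cnt_eq_sum]
  exact Equiv.sum_comp σ (fun k => if w k = x then 1 else 0)

theorem card_eq_fact (c : D → ℕ) (h : ∑ x, c x = Fintype.card κ) (h1 : ∀ x, c x ≤ 1) :
    #{w : κ → D | ∀ x, cnt w x = c x} = (Fintype.card κ)! := by
  obtain ⟨w₀, h0⟩ := exists_count (κ := κ) c h
  have hinj : Function.Injective w₀ := inj_of_le fun x => by rw [h0]; exact h1 x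
  rw [← Fintype.card_perm, ← Finset.card_univ]
  symm
  refine card_bij (fun σ _ => w₀ ∘ σ) ?_ ?_ ?_
  · intro σ _
    simp only [mem_filter, mem_univ, true_and]
    intro x
    rw [cnt_comp_perm, h0]
  · intro σ _ τ _ hστ
    ext k
    exact hinj (congrFun hστ k)
  · intro w hw
    simp only [mem_filter, mem_univ, true_and] at hw
    obtain ⟨σ, hσ⟩ := exists_perm (w := w) (w' := w₀) (fun x => by rw [hw, h0])
    exact ⟨σ, mem_univ _, hσ⟩

/-- words in which the positions `i`, `j` carry the only letter of multiplicity two -/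
theorem card_pair (c : D → ℕ) (h : ∑ x, c x = Fintype.card κ) (x₀ : D) (h2 : c x₀ = 2)
    (h1 : ∀ x, x ≠ x₀ → c x ≤ 1) (i j : κ) (hij : i ≠ j) :
    #{w : κ → D | (∀ x, cnt w x = c x) ∧ w i = w j} = (Fintype.card κ - 2)! := by
  obtain ⟨p, hp⟩ : ∃ p : κ → Prop, ∀ k, p k ↔ (k = i ∨ k = j) := ⟨_, fun _ => Iff.rfl⟩
  have hpc : #{k | p k} = 2 := by
    have : ({k | p k} : Finset κ) = {i, j} := by
      ext k
      simp [hp]
    rw [this, Finset.card_pair hij]
  have hcard : Fintype.card {k // ¬ p k} = Fintype.card κ - 2 := by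
    rw [Fintype.card_subtype_compl, Fintype.card_subtype, hpc]
  -- the counts of the rest
  set c' : D → ℕ := fun x => c x - if x = x₀ then 2 else 0 with hc'
  have hc1 : ∀ x, c' x ≤ 1 := by
    intro x
    simp only [hc']
    by_cases hx : x = x₀
    · subst hx
      simp [h2]
    · simp [hx, h1 x hx]
  have hcc : ∀ x, c x = (if x = x₀ then 2 else 0) + c' x := by
    intro x
    simp only [hc']
    by_cases hx : x = x₀
    · subst hx
      simp [h2]
    · simp [hx]
  have hsum : ∑ x, c' x = Fintype.card {k // ¬ p k} := by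
    have h3 : ∑ x, c x = 2 + ∑ x, c' x := by
      simp only [hcc]
      rw [sum_add_distrib]
      congr 1
      simp
    rw [hcard, ← h, h3]
    omega
  rw [← hcard, ← card_eq_fact (κ := {k // ¬ p k}) c' hsum hc1]
  -- the count of a word with letter x₀ at i, j
  have key : ∀ w : κ → D, w i = x₀ → w j = x₀ → ∀ x,
      cnt w x = (if x = x₀ then 2 else 0) + cnt (fun k : {k // ¬ p k} => w k) x := by
    intro w hi hj x
    rw [cnt_split w p]
    congr 1
    by_cases hx : x = x₀
    · subst hx
      rw [if_pos rfl, ← hpc]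
      congr 1
      ext k
      simp only [mem_filter, mem_univ, true_and]
      constructor
      · exact fun h => h.1
      · intro h
        refine ⟨h, ?_⟩
        rcases (hp k).1 h with h | h
        · rw [h, hi]
        · rw [h, hj]
    · rw [if_neg hx, card_eq_zero, filter_eq_empty_iff]
      rintro k _ ⟨h, h'⟩
      rcases (hp k).1 h with h | h
      · rw [h, hi] at h'
        exact hx h'.symm
      · rw [h, hj] at h'
        exact hx h'.symm
  refine card_bij (fun w _ => fun k : {k // ¬ p k} => w k) ?_ ?_ ?_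
  · intro w hw
    simp only [mem_filter, mem_univ, true_and] at hw ⊢
    obtain ⟨hw, he⟩ := hw
    have hx : w i = x₀ := by
      by_contra hne
      have h3 := h1 _ hne
      rw [← hw] at h3
      unfold cnt at h3
      rw [card_le_one] at h3
      exact hij (h3 i (by simp) j (by simp [he]))
    intro x
    have h4 := key w hx (he ▸ hx) x
    rw [hw, hcc] at h4
    omega
  · intro w hw w' hw' hww
    simp only [mem_filter, mem_univ, true_and] at hw hw'
    have hx : ∀ u : κ → D, ((∀ x, cnt u x = c x) ∧ u i = u j) → u i = x₀ := by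
      rintro u ⟨hu, he⟩
      by_contra hne
      have h3 := h1 _ hne
      rw [← hu] at h3
      unfold cnt at h3
      rw [card_le_one] at h3
      exact hij (h3 i (by simp) j (by simp [he]))
    ext1 k
    by_cases hk : p k
    · rcases (hp k).1 hk with hk | hk
      · rw [hk, hx w hw, hx w' hw']
      · rw [hk, ← hw.2, ← hw'.2, hx w hw, hx w' hw']
    · exact congrFun hww ⟨k, hk⟩
  · intro u hu
    simp only [mem_filter, mem_univ, true_and] at hu
    set w : κ → D := fun k => if hk : p k then x₀ else u ⟨k, hk⟩ with hw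
    have hi : w i = x₀ := by simp [hw, hp]
    have hj : w j = x₀ := by simp [hw, hp]
    have hu' : (fun k : {k // ¬ p k} => w k) = u := by
      ext1 k
      simp only [hw]
      rw [dif_neg k.2]
    refine ⟨w, ?_, hu'⟩
    simp only [mem_filter, mem_univ, true_and]
    refine ⟨fun x => ?_, by rw [hi, hj]⟩
    rw [key w hi hj x, hu', hu, hcc]

end Count

/-! ### Vectors -/

/-- the excess of a coordinate -/
def exc (v : ι → ℤ) (i : ι) : ℕ := (v i).natAbs - if v i ≠ 0 then 1 else 0

theorem exc_add (v : ι → ℤ) : ∑ i, exc v i + ell v = nrm v := by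
  unfold ell nrm exc
  rw [card_filter, ← sum_add_distrib]
  refine sum_congr rfl fun i _ => ?_
  by_cases h : v i = 0
  · simp [h]
  · simp only [ne_eq, h, not_false_eq_true, if_true]
    have : (v i).natAbs ≠ 0 := by simpa using h
    omega

/-- the direction of a coordinate -/
def dir (v : ι → ℤ) (i : ι) : ι × Bool := (i, decide (0 < v i))

theorem mu_dir (v : ι → ℤ) (i : ι) : mu v (dir v i) = (v i).natAbs := by
  unfold mu dir
  by_cases h : 0 < v i
  · simp [h]
    omega
  · simp [h]
    omega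

theorem mu_le (v : ι → ℤ) (x : ι × Bool) : mu v x ≤ (v x.1).natAbs := by
  unfold mu
  split_ifs <;> omega

theorem mu_other (v : ι → ℤ) (i : ι) (x : ι × Bool) (h1 : x.1 = i) (h2 : x ≠ dir v i) :
    mu v x = 0 := by
  obtain ⟨j, b⟩ := x
  simp only at h1
  subst h1
  unfold dir at h2
  unfold mu
  by_cases h : 0 < v j
  · simp [h] at h2
    simp [h2]
    omega
  · simp [h] at h2
    simp [h2]
    omega

theorem exc_natAbs (v : ι → ℤ) (i : ι) : (v i).natAbs ≤ exc v i + 1 := by
  unfold exc
  split_ifs <;> omega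

theorem natAbs_exc (v : ι → ℤ) (i : ι) (h : exc v i ≠ 0) : (v i).natAbs = exc v i + 1 := by
  unfold exc at h ⊢
  split_ifs at h ⊢ <;> omega

theorem mu_le_exc (v : ι → ℤ) (x : ι × Bool) : mu v x ≤ exc v x.1 + 1 :=
  (mu_le v x).trans (exc_natAbs v x.1)

theorem two_words (v : ι → ℤ) (hv : nrm v = Fintype.card κ) (x : ι × Bool) (hx : 2 ≤ mu v x)
    (i j : κ) : ∃ w : κ → ι × Bool, vs w = v ∧ w i = w j := by
  obtain ⟨p, hp⟩ : ∃ p : κ → Prop, ∀ k, p k ↔ (k = i ∨ k = j) := ⟨_, fun _ => Iff.rfl⟩
  obtain ⟨w, h1, h2⟩ := exists_ext (κ := κ) (mu v) (by rw [sum_mu, hv]) p (fun _ => x) (by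
      intro y
      by_cases hy : x = y
      · subst hy
        refine le_trans ((cntOn_le {i, j} ?_).trans card_le_two) hx
        intro k hk _
        simpa [hp] using hk
      · rw [cntOn_zero fun k _ => hy]
        exact Nat.zero_le _)
  exact ⟨w, vs_of_cnt h1, by rw [h2 i ((hp _).2 (Or.inl rfl)), h2 j ((hp _).2 (Or.inr rfl))]⟩

theorem three_words (v : ι → ℤ) (hv : nrm v = Fintype.card κ) (x : ι × Bool) (hx : 3 ≤ mu v x)
    (i j k : κ) : ∃ w : κ → ι × Bool, vs w = v ∧ w i = w j ∧ w j = w k := by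
  obtain ⟨p, hp⟩ : ∃ p : κ → Prop, ∀ l, p l ↔ (l = i ∨ l = j ∨ l = k) := ⟨_, fun _ => Iff.rfl⟩
  obtain ⟨w, h1, h2⟩ := exists_ext (κ := κ) (mu v) (by rw [sum_mu, hv]) p (fun _ => x) (by
      intro y
      by_cases hy : x = y
      · subst hy
        refine le_trans ((cntOn_le {i, j, k} ?_).trans card_le_three) hx
        intro l hl _
        simpa [hp] using hl
      · rw [cntOn_zero fun k _ => hy]
        exact Nat.zero_le _)
  refine ⟨w, vs_of_cnt h1, ?_, ?_⟩
  · rw [h2 i ((hp _).2 (Or.inl rfl)), h2 j ((hp _).2 (Or.inr (Or.inl rfl)))]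
  · rw [h2 j ((hp _).2 (Or.inr (Or.inl rfl))), h2 k ((hp _).2 (Or.inr (Or.inr rfl)))]

theorem twotwo_words (v : ι → ℤ) (hv : nrm v = Fintype.card κ) (x y : ι × Bool) (hxy : x ≠ y)
    (hx : 2 ≤ mu v x) (hy : 2 ≤ mu v y) (i j k l : κ) (hn : [i, j, k, l].Nodup) :
    ∃ w : κ → ι × Bool, vs w = v ∧ w i = w j ∧ w k = w l := by
  simp only [List.nodup_cons, List.mem_cons, List.not_mem_nil, or_false, not_or] at hn
  obtain ⟨⟨hij, hik, hil⟩, ⟨hjk, hjl⟩, hkl, -⟩ := hn
  obtain ⟨p, hp⟩ : ∃ p : κ → Prop, ∀ q, p q ↔ (q = i ∨ q = j ∨ q = k ∨ q = l) :=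
    ⟨_, fun _ => Iff.rfl⟩
  obtain ⟨w, h1, h2⟩ := exists_ext (κ := κ) (mu v) (by rw [sum_mu, hv]) p
    (fun q => if q = i ∨ q = j then x else y) (by
      intro z
      by_cases hz : z = x
      · subst hz
        refine le_trans ((cntOn_le {i, j} ?_).trans card_le_two) hx
        intro q _ h4
        by_cases h5 : q = i ∨ q = j
        · simpa using h5
        · simp only [if_neg h5] at h4
          exact absurd h4.symm hxy
      · by_cases hz' : z = y
        · subst hz'
          refine le_trans ((cntOn_le {k, l} ?_).trans card_le_two) hy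
          intro q h3 h4
          by_cases h5 : q = i ∨ q = j
          · simp only [if_pos h5] at h4
            exact absurd h4 hxy
          · have : q = k ∨ q = l := by
              have := (hp q).1 h3
              tauto
            simpa using this
        · rw [cntOn_zero]
          · exact Nat.zero_le _
          · intro q _
            by_cases h5 : q = i ∨ q = j
            · simp only [if_pos h5]
              exact fun h => hz h.symm
            · simp only [if_neg h5]
              exact fun h => hz' h.symm)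
  refine ⟨w, vs_of_cnt h1, ?_, ?_⟩
  · rw [h2 i ((hp _).2 (Or.inl rfl)), h2 j ((hp _).2 (Or.inr (Or.inl rfl)))]
    simp
  · rw [h2 k ((hp _).2 (Or.inr (Or.inr (Or.inl rfl)))),
      h2 l ((hp _).2 (Or.inr (Or.inr (Or.inr rfl))))]
    rw [if_neg (by rintro (h | h); exacts [hik h.symm, hjk h.symm]),
      if_neg (by rintro (h | h); exacts [hil h.symm, hjl h.symm])]

/-- module W -/
theorem w : T_W := by
  intro ι _ κ _
  refine ⟨nrm_vs_le, ?_⟩
  intro v hv
  have hset : (univ.filter fun w : κ → ι × Bool => vs w = v) =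
      univ.filter fun w : κ → ι × Bool => ∀ x, cnt w x = mu v x := by
    ext w
    simp only [mem_filter, mem_univ, true_and]
    exact vs_iff hv w
  have hsum : ∑ x, mu v x = Fintype.card κ := by rw [sum_mu, hv]
  have hex := exc_add v
  have hmu1 : ell v = Fintype.card κ → ∀ x, mu v x ≤ 1 := by
    intro h x
    have h1 : ∑ i, exc v i = 0 := by omega
    have h2 : exc v x.1 = 0 := sum_eq_zero_iff.1 h1 _ (mem_univ _)
    have := mu_le_exc v x
    omega
  refine ⟨?_, ?_, ?_, ?_, ?_, ?_, ?_⟩
  · obtain ⟨w, hw⟩ := exists_count (κ := κ) (mu v) hsum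
    exact ⟨w, vs_of_cnt hw⟩
  · rw [hset]
    exact card_le _
  · intro h
    rw [hset]
    exact card_eq_fact _ hsum (hmu1 h)
  · intro i j hij h
    have h1 : ∑ i, exc v i = 1 := by omega
    obtain ⟨i₀, -, hi₀⟩ : ∃ i₀ ∈ (univ : Finset ι), exc v i₀ ≠ 0 := by
      apply exists_ne_zero_of_sum_ne_zero
      omega
    have h2 := add_sum_erase univ (exc v) (mem_univ i₀)
    have h3 : exc v i₀ = 1 := by omega
    have h4 : ∑ x ∈ univ.erase i₀, exc v x = 0 := by omega
    have h5 : ∀ i, i ≠ i₀ → exc v i = 0 := fun i hi =>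
      sum_eq_zero_iff.1 h4 i (mem_erase.2 ⟨hi, mem_univ _⟩)
    have h6 : mu v (dir v i₀) = 2 := by
      rw [mu_dir, natAbs_exc v i₀ hi₀, h3]
    have h7 : ∀ x, x ≠ dir v i₀ → mu v x ≤ 1 := by
      intro x hx
      by_cases hx1 : x.1 = i₀
      · rw [mu_other v i₀ x hx1 hx]
        omega
      · have := mu_le_exc v x
        rw [h5 _ hx1] at this
        omega
    have hset2 : (univ.filter fun w : κ → ι × Bool => vs w = v ∧ w i = w j) =
        univ.filter fun w : κ → ι × Bool => (∀ x, cnt w x = mu v x) ∧ w i = w j := by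
      ext w
      simp only [mem_filter, mem_univ, true_and]
      rw [vs_iff hv w]
    rw [hset2]
    convert card_pair (mu v) hsum _ h6 h7 i j hij
  · intro i j hij h w hw he
    have h1 : Function.Injective w := inj_of_le fun x => by
      rw [cnt_of_vs hw hv]
      exact hmu1 h x
    exact hij (h1 he)
  · intro i j _ h
    obtain ⟨i₀, -, hi₀⟩ : ∃ i₀ ∈ (univ : Finset ι), exc v i₀ ≠ 0 := by
      apply exists_ne_zero_of_sum_ne_zero
      omega
    refine two_words v hv (dir v i₀) ?_ i j
    rw [mu_dir, natAbs_exc v i₀ hi₀]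
    omega
  · intro i j k l hn h
    obtain ⟨i₀, -, hi₀⟩ : ∃ i₀ ∈ (univ : Finset ι), exc v i₀ ≠ 0 := by
      apply exists_ne_zero_of_sum_ne_zero
      omega
    by_cases h3 : 2 ≤ exc v i₀
    · obtain ⟨w, hw, h4, h5⟩ := three_words v hv (dir v i₀) (by
        rw [mu_dir, natAbs_exc v i₀ hi₀]
        omega) i j k
      exact ⟨w, hw, Or.inr ⟨h4, h5⟩⟩
    · have h2 := add_sum_erase univ (exc v) (mem_univ i₀)
      obtain ⟨i₁, hi₁, hi₁'⟩ : ∃ i₁ ∈ univ.erase i₀, exc v i₁ ≠ 0 := by
        apply exists_ne_zero_of_sum_ne_zero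
        omega
      have hne : i₁ ≠ i₀ := (mem_erase.1 hi₁).1
      obtain ⟨w, hw, h4, h5⟩ := twotwo_words v hv (dir v i₀) (dir v i₁) (by
        intro h
        exact hne (congrArg Prod.fst h).symm) (by
        rw [mu_dir, natAbs_exc v i₀ hi₀]
        omega) (by
        rw [mu_dir, natAbs_exc v i₁ hi₁']
        omega) i j k l hn
      exact ⟨w, hw, Or.inl ⟨h4, h5⟩⟩

end

end Pool.Agent.H59.GC
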