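import Pool.Agent.H23.GC.Targets3

/-!
# Perfect spanning sets of large size, radius four: the residue class four (module K4)
-/

set_option autoImplicit false

open Finset Pool.Agent.H23.GW Pool.Agent.H23.GC
open scoped Classical Nat

namespace Pool.Agent.H59.GC.K4

noncomputable section

variable {ι : Type} [Fintype ι] {G : Type} [AddCommGroup G] {s : ℕ} {ev : (ι → ℤ) →+ G}

/-- the first negligible set -/
def na (ev : (ι → ℤ) →+ G) : ℕ :=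
  #{q ∈ Vn ι 5 ×ˢ Vn ι 5 | ev q.1 = ev q.2 ∧ q.1 ≠ q.2 ∧ ell q.1 + ell q.2 ≤ 6 ∧
      ell q.1 ≤ 4 ∧ ell q.2 ≤ 4 ∧
      ¬ (t3 q.1 ∧ t22 q.2) ∧ ¬ (t22 q.1 ∧ t3 q.2) ∧ ¬ (t1 q.1 ∧ t32 q.2) ∧
      ¬ (t32 q.1 ∧ t1 q.2)}

/-- the second negligible set -/
def nn (ev : (ι → ℤ) →+ G) : ℕ :=
  #{q ∈ Vn ι 4 ×ˢ Vn ι 5 | ev q.1 = ev q.2 ∧ ell q.1 + ell q.2 ≤ 6 ∧
      ell q.1 ≤ 3 ∧ ell q.2 ≤ 4 ∧ ¬ (e1 q.1 ∧ t22 q.2) ∧ ¬ (e22 q.1 ∧ t1 q.2)}

theorem ell_le_nrm (v : ι → ℤ) : ell v ≤ nrm v := by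
  unfold ell nrm
  rw [card_filter]
  refine sum_le_sum fun i _ => ?_
  split_ifs with h
  · exact Int.natAbs_pos.2 h
  · exact Nat.zero_le _

theorem pairs5 :
    ∑ c ∈ Vn ι 5 with ell c = 4, ∑ c' ∈ Vn ι 5 with ev c' = ev c ∧ c ≠ c', (5 - ell c') ≤
      P5 ev t1 t1 + 2 * P5 ev t1 t22 + 2 * P5 ev t1 t3 + 3 * P5 ev t1 t32 + 5 * na ev := by
  unfold P5 na
  simp only [card_filter, sum_filter]
  rw [mul_sum, mul_sum, mul_sum, mul_sum, ← sum_add_distrib, ← sum_add_distrib, ← sum_add_distrib,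
    ← sum_add_distrib, sum_product]
  refine sum_le_sum fun c _ => ?_
  by_cases h4 : ell c = 4
  swap
  · rw [if_neg h4]; exact Nat.zero_le _
  rw [if_pos h4]
  refine sum_le_sum fun c' _ => ?_
  by_cases h : ev c' = ev c ∧ c ≠ c'
  swap
  · rw [if_neg h]; exact Nat.zero_le _
  rw [if_pos h]
  obtain ⟨h1, h2⟩ := h
  have ht1 : t1 c := h4
  simp only [h1.symm, h2, ht1, true_and, ne_eq, not_false_eq_true]
  have hn3 : ¬ t3 c := fun h => by have := h.1; omega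
  have hn22 : ¬ t22 c := fun h => by have := h.1; omega
  have hn32 : ¬ t32 c := fun h => by have := h.1; omega
  simp only [hn3, hn22, hn32, false_and, not_false_eq_true, true_and, and_true]
  by_cases k5 : 5 ≤ ell c'
  · omega
  by_cases k4 : ell c' = 4
  · have : t1 c' := k4
    rw [if_pos this, k4]
    omega
  by_cases k3 : ell c' = 3
  · by_cases k22 : t22 c'
    · rw [if_pos k22, k3]
      omega
    · have : t3 c' := by
        refine ⟨k3, ?_⟩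
        by_contra hcon
        push Not at hcon
        exact k22 ⟨k3, fun x => by have := hcon x; omega⟩
      rw [if_pos this, k3]
      omega
  · by_cases k32 : t32 c'
    · have := k32.1
      rw [if_pos k32]
      omega
    · have : ell c + ell c' ≤ 6 ∧ ell c ≤ 4 ∧ ell c' ≤ 4 ∧ ¬ t32 c' := ⟨by omega, by omega, by omega, k32⟩
      rw [if_pos this]
      omega

theorem pairs4 :
    ∑ q ∈ Vn ι 4 ×ˢ Vn ι 5 with ev q.1 = ev q.2 ∧ ell q.2 = 4, (4 - ell q.1) ≤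
      P4 ev e1 t1 + 2 * P4 ev e22 t1 + 4 * nn ev := by
  unfold P4 nn
  simp only [card_filter, sum_filter]
  rw [mul_sum, mul_sum, ← sum_add_distrib, ← sum_add_distrib]
  refine sum_le_sum fun q _ => ?_
  by_cases h : ev q.1 = ev q.2 ∧ ell q.2 = 4
  swap
  · rw [if_neg h]; exact Nat.zero_le _
  rw [if_pos h]
  obtain ⟨h1, h4⟩ := h
  have ht1 : t1 q.2 := h4
  have hn22 : ¬ t22 q.2 := fun h => by have := h.1; omega
  simp only [h1, ht1, hn22, and_true, true_and, and_false, not_false_eq_true]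
  by_cases k4 : 4 ≤ ell q.1
  · omega
  by_cases k3 : ell q.1 = 3
  · have : e1 q.1 := k3
    rw [if_pos this]
    omega
  · by_cases k2 : e22 q.1
    · have := k2.1
      rw [if_pos k2]
      omega
    · have : ell q.1 + ell q.2 ≤ 6 ∧ ell q.1 ≤ 3 ∧ ell q.2 ≤ 4 ∧ ¬ e22 q.1 :=
        ⟨by omega, by omega, by omega, k2⟩
      rw [if_pos this]
      omega

theorem main (hV : T_V) (hI : T_I) (hRC : T_RC) (hPC : PC 4 ev)
    (hm : (2 * Fintype.card ι) % 5 = 4) :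
    16 * #{d ∈ Vn ι 4 | ell d = 4} ≤
      (P5 ev t1 t1 + 2 * P5 ev t1 t22 + 2 * P5 ev t1 t3 + 3 * P5 ev t1 t32 + 5 * na ev) +
      (P4 ev e1 t1 + 2 * P4 ev e22 t1 + 4 * nn ev) := by
  obtain ⟨hI1, hI2⟩ := hI ι G 4 ev hPC (by norm_num)
  have hRC' := hRC ι 4 (by norm_num)
  have hex : ∀ c : ι → ℤ, ∃ d : ι → ℤ, c ∈ Vn ι 5 → d ∈ Vn ι 4 ∧ ev d = ev c := by
    intro c
    by_cases h : c ∈ Vn ι 5
    · obtain ⟨d, hd, -⟩ := hI2 c h
      exact ⟨d, fun _ => hd⟩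
    · exact ⟨0, fun h' => absurd h' h⟩
  choose dd hdd using hex
  have key : ∀ c ∈ (Vn ι 5).filter (fun c => ell c = 4),
      4 ≤ ∑ c' ∈ Vn ι 5 with ev c' = ev c ∧ c ≠ c', (5 - ell c') + (4 - ell (dd c)) := by
    intro c hc
    rw [mem_filter] at hc
    obtain ⟨hc, hc4⟩ := hc
    obtain ⟨hd, hdc⟩ := hdd c hc
    have h1 := hI1 _ hd
    have hd4 : ell (dd c) ≤ 4 := by
      have := ell_le_nrm (dd c)
      rw [(hV ι 4 (dd c)).1 hd] at this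
      exact this
    have h2 : ∑ c' ∈ Vn ι 5 with ev c' = ev c, (5 - ell c') =
        ∑ c' ∈ Vn ι 5 with ev c' = ev c ∧ c ≠ c', (5 - ell c') + 1 := by
      have hcm : c ∈ (Vn ι 5).filter (fun c' => ev c' = ev c) := mem_filter.2 ⟨hc, rfl⟩
      rw [← sum_erase_add _ _ hcm, hc4]
      congr 1
      refine sum_congr ?_ fun _ _ => rfl
      ext x
      simp only [mem_erase, mem_filter]
      constructor
      · rintro ⟨a, b, c⟩; exact ⟨b, c, fun h => a h.symm⟩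
      · rintro ⟨a, b, c⟩; exact ⟨fun h => c h.symm, a, b⟩
    have h3 : ∑ c' ∈ Vn ι 5 with ev c' = ev c, (5 - ell c') +
        ∑ c' ∈ Vn ι 5 with ev c' = ev c, ell c' = #{c' ∈ Vn ι 5 | ev c' = ev c} * 5 := by
      rw [← sum_add_distrib]
      refine sum_const_nat fun x hx => ?_
      have := ell_le_nrm x
      rw [(hV ι 5 x).1 (mem_filter.1 hx).1] at this
      omega
    simp only [hdc] at h1
    norm_num at h1
    omega
  have hsum := sum_le_sum key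
  rw [sum_const, sum_add_distrib, smul_eq_mul] at hsum
  have h5 := pairs5 (ev := ev)
  have h4 := pairs4 (ev := ev)
  have h6 : ∑ c ∈ Vn ι 5 with ell c = 4, (4 - ell (dd c)) ≤
      ∑ q ∈ Vn ι 4 ×ˢ Vn ι 5 with ev q.1 = ev q.2 ∧ ell q.2 = 4, (4 - ell q.1) := by
    have e : ∑ c ∈ Vn ι 5 with ell c = 4, (4 - ell (dd c)) =
        ∑ q ∈ ((Vn ι 5).filter (fun c => ell c = 4)).image (fun c => (dd c, c)),
          (4 - ell q.1) := by
      rw [sum_image]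
      intro x _ y _ hxy
      exact (Prod.mk.inj hxy).2
    rw [e]
    refine sum_le_sum_of_subset fun q hq => ?_
    rw [mem_image] at hq
    obtain ⟨c, hc, rfl⟩ := hq
    rw [mem_filter] at hc
    rw [mem_filter, mem_product]
    exact ⟨⟨(hdd c hc.1).1, hc.1⟩, (hdd c hc.1).2, hc.2⟩
  norm_num at hRC'
  rw [hRC'] at hsum
  omega

/-- Module K4. -/
theorem k4 (hN5 : T_N5) (hE5 : T_E5) (hE4 : T_E4) (hU4 : T_U4) (hZ4 : T_Z4) (hG5 : T_G5)
    (hAL : T_AL) (hRC : T_RC) (hI : T_I) (hV : T_V) : T_K4 := by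
  obtain ⟨C1, h1⟩ := hN5
  obtain ⟨C2, h2⟩ := hZ4
  obtain ⟨C3, h3⟩ := hG5
  obtain ⟨C4, h4⟩ := hAL
  obtain ⟨n, hn⟩ := exists_nat_gt (324 * |C1| + |C2| + 19 * |C3| + 6 * |C4|)
  refine ⟨n + 1, ?_⟩
  intro ι _ G _ _ ev hPC hodd hm hres
  have hm1 : 1 ≤ Fintype.card ι := by omega
  have a1 := main hV hI hRC hPC hres
  obtain ⟨b1, b2⟩ := h1 ι G ev hPC hodd hm1
  have b3 := h2 ι G ev hPC hodd hm1
  obtain ⟨b4, b5⟩ := h3 ι G ev hPC hodd hm1
  have b6 := h4 ι G ev hPC hodd hm1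
  obtain ⟨c1, c2, c3, c4, c5⟩ := hE5 ι G ev hPC
  obtain ⟨d1, d2, d3⟩ := hE4 ι G ev hPC
  obtain ⟨u1, -, -⟩ := hU4 ι G ev hPC
  have b1 : (na ev : ℝ) ≤ C1 * (Fintype.card ι : ℝ) ^ 2 := b1
  have b2 : (nn ev : ℝ) ≤ C1 * (Fintype.card ι : ℝ) ^ 2 := b2
  have a1' : (16 : ℝ) * #{d ∈ Vn ι 4 | ell d = 4} ≤
      (P5 ev t1 t1 + 2 * P5 ev t1 t22 + 2 * P5 ev t1 t3 + 3 * P5 ev t1 t32 + 5 * na ev) +
      (P4 ev e1 t1 + 2 * P4 ev e22 t1 + 4 * nn ev) := by exact_mod_cast a1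
  have c1' : (36 : ℝ) * P5 ev t1 t1 + 72 * P5 ev t1 t22 + 72 * P5 ev t1 t3 + 72 * P5 ev t3 t22 +
      48 * P5 ev t1 t32 ≤ z10 ev := by exact_mod_cast c1
  have c5' : (6 : ℝ) * P5 ev t1 t32 ≤ ga ev := by exact_mod_cast c5
  have d1' : (12 : ℝ) * P4 ev e1 t1 + 12 * P4 ev e1 t22 + 12 * P4 ev e22 t1 ≤ z9 ev := by
    exact_mod_cast d1
  have d3' : (12 : ℝ) * P4 ev e22 t1 ≤ al ev := by exact_mod_cast d3
  have u1' : (z9 ev : ℝ) + 6 * al ev ≤ 24 * (2 * (Fintype.card ι : ℝ)) ^ 3 := by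
    exact_mod_cast u1
  have y0 : (0 : ℝ) ≤ P5 ev t3 t22 := Nat.cast_nonneg _
  have hmn : (n : ℝ) + 1 ≤ Fintype.card ι := by exact_mod_cast hm
  set m : ℝ := (Fintype.card ι : ℝ) with hmdef
  have hn0 : (0 : ℝ) ≤ n := Nat.cast_nonneg _
  have hm1' : (1 : ℝ) ≤ m := by linarith
  have key : 48 * m ^ 3 ≤ (324 * C1 + C2 + 19 * C3 + 6 * C4) * m ^ 2 := by
    have e3 : (2 * m) ^ 3 = 8 * m ^ 3 := by ring
    rw [e3] at b3 b6 u1'
    linarith
  have hC : 324 * C1 + C2 + 19 * C3 + 6 * C4 ≤ n := by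
    have := le_abs_self C1
    have := le_abs_self C2
    have := le_abs_self C3
    have := le_abs_self C4
    linarith
  have hm2 : 0 < m ^ 2 := by positivity
  have : (324 * C1 + C2 + 19 * C3 + 6 * C4) * m ^ 2 ≤ n * m ^ 2 :=
    mul_le_mul_of_nonneg_right hC hm2.le
  have h7 : 48 * m ^ 3 ≤ n * m ^ 2 := key.trans this
  have h8 : (n : ℝ) * m ^ 2 < 48 * m ^ 3 := by
    have : (n : ℝ) < 48 * m := by linarith
    calc (n : ℝ) * m ^ 2 < 48 * m * m ^ 2 := mul_lt_mul_of_pos_right this hm2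
      _ = 48 * m ^ 3 := by ring
  linarith

end

end Pool.Agent.H59.GC.K4
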