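import Pool.Agent.H23.GC.Targets3

/-!
# Perfect spanning sets of large size, radius four: words with two coincidences (module Z4)
-/

set_option autoImplicit false

open Finset Pool.Agent.H23.GW Pool.Agent.H23.GC
open scoped Classical Nat

namespace Pool.Agent.H59.GC.Z4

noncomputable section

private theorem cfs {α : Type} {s : Finset α} {P : α → Prop} {d1 d2 : DecidablePred P} :
    #(@Finset.filter α P d1 s) = #(@Finset.filter α P d2 s) := by
  cases Subsingleton.elim d1 d2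
  rfl

private theorem cfi {α : Type} {f1 f2 : Fintype α} {P : α → Prop} {d1 d2 : DecidablePred P} :
    #(@Finset.filter α P d1 (@Finset.univ α f1)) = #(@Finset.filter α P d2 (@Finset.univ α f2)) := by
  cases Subsingleton.elim f1 f2
  cases Subsingleton.elim d1 d2
  rfl

variable {ι : Type} [Fintype ι] {G : Type} [AddCommGroup G] {s : ℕ} {ev : (ι → ℤ) →+ G}

theorem nrm_add_le (a b : ι → ℤ) : nrm (a + b) ≤ nrm a + nrm b := by
  unfold nrm
  rw [← sum_add_distrib]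
  exact sum_le_sum fun i _ => Int.natAbs_add_le (a i) (b i)

theorem nrm_neg (a : ι → ℤ) : nrm (-a) = nrm a := by
  unfold nrm
  exact sum_congr rfl fun i _ => by rw [Pi.neg_apply, Int.natAbs_neg]

/-- words of a vector with a property -/
def nu {b : ℕ} (v : ι → ℤ) (Q : (Fin b → ι × Bool) → Prop) : ℕ :=
  #{u : Fin b → ι × Bool | vs u = v ∧ Q u}

/-- reduced words with a property and a given norm of the short vector of the coset -/
def Rs (ev : (ι → ℤ) →+ G) (r : G → ι → ℤ) {a : ℕ} (P : (Fin a → ι × Bool) → Prop) (b : ℕ) :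
    Finset (Fin a → ι × Bool) :=
  {w | (P w ∧ nrm (vs w) = a) ∧ nrm (r (ev (vs w))) = b}

/-- words in the kernel -/
def ze (ev : (ι → ℤ) →+ G) {a : ℕ} (P : (Fin a → ι × Bool) → Prop) : ℕ :=
  #{z ∈ Zr ev (Fin a) | P z}

theorem ze_eq {a : ℕ} (P : (Fin a → ι × Bool) → Prop) [DecidablePred P] :
    #((Zr ev (Fin a)).filter P) = ze ev P := by
  unfold ze
  exact cfs

/-- decomposition in two blocks, the second one short -/
theorem bl (hPC : PC s ev) (hW : T_W) (r : G → ι → ℤ)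
    (hr : ∀ g, nrm (r g) ≤ s ∧ ev (r g) = g) (a b : ℕ) (hb : b ≤ s)
    (P : (Fin a → ι × Bool) → Prop) (Q : (Fin b → ι × Bool) → Prop) :
    ze ev (fun z : Fin (a + b) → ι × Bool => P (fun i => z (Fin.castAdd b i)) ∧
      Q (fun j => z (Fin.natAdd a j))) ≤
    ∑ w ∈ Rs ev r P b, nu (-r (ev (vs w))) Q := by
  unfold ze nu
  rw [← card_sigma]
  refine card_le_card_of_injOn
    (fun z => ⟨fun i => z (Fin.castAdd b i), fun j => z (Fin.natAdd a j)⟩) ?_ ?_
  · intro z hz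
    simp only [coe_filter, Zr, mem_filter, Set.mem_ofPred_eq] at hz
    obtain ⟨⟨-, h1, h2⟩, h3, h4⟩ := hz
    have hv : vs z = vs (fun i => z (Fin.castAdd b i)) + vs (fun j => z (Fin.natAdd a j)) := by
      unfold vs
      rw [Fin.sum_univ_add]
    have hwa : nrm (vs (fun i => z (Fin.castAdd b i))) ≤ a := by
      have := (hW ι (Fin a)).1 (fun i => z (Fin.castAdd b i))
      rwa [Fintype.card_fin] at this
    have hwb : nrm (vs (fun j => z (Fin.natAdd a j))) ≤ b := by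
      have := (hW ι (Fin b)).1 (fun j => z (Fin.natAdd a j))
      rwa [Fintype.card_fin] at this
    rw [Fintype.card_fin] at h1
    have hle := nrm_add_le (vs (fun i => z (Fin.castAdd b i))) (vs (fun j => z (Fin.natAdd a j)))
    rw [← hv, h1] at hle
    have hrr : -vs (fun j => z (Fin.natAdd a j)) = r (ev (vs (fun i => z (Fin.castAdd b i)))) := by
      obtain ⟨c, -, hc⟩ := hPC (ev (vs (fun i => z (Fin.castAdd b i))))
      refine (hc _ ⟨?_, ?_⟩).trans (hc _ (hr _)).symm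
      · rw [nrm_neg]; omega
      · rw [hv, map_add] at h2
        rw [map_neg]
        exact (eq_neg_of_add_eq_zero_left h2).symm
    rw [mem_coe, mem_sigma]
    simp only [Rs, mem_filter, mem_univ, true_and]
    refine ⟨⟨⟨h3, by omega⟩, ?_⟩, ?_, h4⟩
    · rw [← hrr, nrm_neg]; omega
    · rw [← hrr, neg_neg]
  · intro z hz z' hz' h
    rw [Sigma.mk.injEq] at h
    obtain ⟨h1, h2⟩ := h
    have h2 := eq_of_heq h2
    funext k
    refine Fin.addCases (fun i => ?_) (fun j => ?_) k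
    · exact congrFun h1 i
    · exact congrFun h2 j

theorem count_le (hW2 : T_W2) (v : ι → ℤ) (b : ℕ) (hv : nrm v = b) (i j : Fin b) (hij : i ≠ j) :
    nu v (fun _ : Fin b → ι × Bool => True) +
      b.choose 2 * nu v (fun u : Fin b → ι × Bool => u i = u j) ≤ b ! := by
  have h := (hW2 ι (Fin b) v (by rw [hv, Fintype.card_fin])).2.1 i j hij
  rw [Fintype.card_fin] at h
  unfold nu
  simp only [and_true]
  rw [add_comm]
  exact le_of_eq_of_le (congrArg₂ (· + ·) (congrArg (b.choose 2 * ·) cfi) cfi) h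

theorem hsum (hW2 : T_W2) (r : G → ι → ℤ) {a b : ℕ} (P : (Fin a → ι × Bool) → Prop)
    (i j : Fin b) (hij : i ≠ j) :
    ∑ w ∈ Rs ev r P b, nu (-r (ev (vs w))) (fun _ : Fin b → ι × Bool => True) +
      b.choose 2 * ∑ w ∈ Rs ev r P b, nu (-r (ev (vs w))) (fun u : Fin b → ι × Bool => u i = u j) ≤
      b ! * #(Rs ev r P b) := by
  rw [mul_sum, ← sum_add_distrib, mul_comm, ← smul_eq_mul]
  refine sum_le_card_nsmul _ _ _ fun w hw => ?_
  rw [Rs, mem_filter] at hw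
  exact count_le hW2 _ b (by rw [nrm_neg]; exact hw.2.2) i j hij

theorem ze_congr {a : ℕ} (P Q : (Fin a → ι × Bool) → Prop) (h : ∀ z, P z ↔ Q z) :
    ze ev P = ze ev Q := by
  have : P = Q := funext fun z => propext (h z)
  rw [this]

theorem ze_perm (hSY : T_SY) {a : ℕ} (e : Equiv.Perm (Fin a)) (P Q : (Fin a → ι × Bool) → Prop)
    (h : ∀ z, P (z ∘ e.symm) ↔ Q z) : ze ev P = ze ev Q := by
  have h3 := (hSY ι G ev).1 (Fin a) (Fin a) e P
  unfold ze
  refine h3.symm.trans ?_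
  congr 1
  ext z
  rw [mem_filter, mem_filter, h z]

theorem main (hSY : T_SY) (hPC : PC 4 ev) (hW : T_W) (hW2 : T_W2) :
    ∃ R3 R4 : ℕ, R3 + R4 ≤ #{w : Fin 6 → ι × Bool | nrm (vs w) = Fintype.card (Fin 6) ∧
      w 0 = w 1 ∧ w 2 = w 3} ∧ z10 ev + 6 * z10b ev ≤ 24 * R4 ∧ z9 ev + 3 * al ev ≤ 6 * R3 := by
  have hex : ∀ g : G, ∃ c : ι → ℤ, nrm c ≤ 4 ∧ ev c = g := fun g => (hPC g).exists
  choose r hr using hex
  obtain ⟨P, hP⟩ : ∃ P : (Fin 6 → ι × Bool) → Prop, ∀ w, P w ↔ (w 0 = w 1 ∧ w 2 = w 3) :=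
    ⟨_, fun _ => Iff.rfl⟩
  refine ⟨#(Rs ev r P 3), #(Rs ev r P 4), ?_, ?_, ?_⟩
  · rw [← card_union_of_disjoint]
    · refine card_le_card fun w hw => ?_
      rw [mem_union, Rs, Rs, mem_filter, mem_filter] at hw
      rw [mem_filter, Fintype.card_fin]
      rcases hw with ⟨-, ⟨h1, h2⟩, -⟩ | ⟨-, ⟨h1, h2⟩, -⟩
      · exact ⟨mem_univ _, h2, (hP w).1 h1⟩
      · exact ⟨mem_univ _, h2, (hP w).1 h1⟩
    · rw [disjoint_left]
      intro w hw hw'
      rw [Rs, mem_filter] at hw hw'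
      omega
  · have h1 := bl hPC hW r hr 6 4 le_rfl P (fun _ => True)
    have h2 := bl hPC hW r hr 6 4 le_rfl P (fun u => u 0 = u 1)
    have e1 : z10 ev = ze ev (fun z : Fin (6 + 4) → ι × Bool =>
        P (fun i => z (Fin.castAdd 4 i)) ∧ True) := by
      refine (ze_eq (fun z : Fin 10 → ι × Bool => z 0 = z 1 ∧ z 2 = z 3)).trans ?_
      refine ze_congr _ _ fun z => ?_
      rw [hP, and_true]
      rfl
    have e2 : z10b ev = ze ev (fun z : Fin (6 + 4) → ι × Bool =>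
        P (fun i => z (Fin.castAdd 4 i)) ∧ z (Fin.natAdd 6 0) = z (Fin.natAdd 6 1)) := by
      refine (ze_eq (fun z : Fin 10 → ι × Bool => z 0 = z 1 ∧ z 2 = z 3 ∧ z 4 = z 5)).trans ?_
      refine ze_perm hSY (Equiv.swap 4 6 * Equiv.swap 5 7) _ _ fun z => ?_
      rw [hP, and_assoc]
      rfl
    have h3 := hsum (ev := ev) hW2 r P (0 : Fin 4) 1 (by decide)
    rw [← e1] at h1
    have h2 := (le_of_eq e2).trans h2
    have h4 : Nat.choose 4 2 = 6 := rfl
    have h5 : 4 ! = 24 := rfl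
    rw [h4, h5] at h3
    omega
  · have h1 := bl hPC hW r hr 6 3 (by norm_num) P (fun _ => True)
    have h2 := bl hPC hW r hr 6 3 (by norm_num) P (fun u => u 0 = u 1)
    have e1 : z9 ev = ze ev (fun z : Fin (6 + 3) → ι × Bool =>
        P (fun i => z (Fin.castAdd 3 i)) ∧ True) := by
      refine (ze_eq (fun z : Fin 9 → ι × Bool => z 0 = z 1 ∧ z 2 = z 3)).trans ?_
      refine ze_congr _ _ fun z => ?_
      rw [hP, and_true]
      rfl
    have e2 : al ev = ze ev (fun z : Fin (6 + 3) → ι × Bool =>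
        P (fun i => z (Fin.castAdd 3 i)) ∧ z (Fin.natAdd 6 0) = z (Fin.natAdd 6 1)) := by
      refine (ze_eq (fun z : Fin 9 → ι × Bool => z 0 = z 1 ∧ z 2 = z 3 ∧ z 4 = z 5)).trans ?_
      refine ze_perm hSY (Equiv.swap 4 6 * Equiv.swap 5 7) _ _ fun z => ?_
      rw [hP, and_assoc]
      rfl
    have h3 := hsum (ev := ev) hW2 r P (0 : Fin 3) 1 (by decide)
    rw [← e1] at h1
    have h2 := (le_of_eq e2).trans h2
    have h4 : Nat.choose 3 2 = 3 := rfl
    have h5 : 3 ! = 6 := rfl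
    rw [h4, h5] at h3
    omega

/-- Module Z4. -/
theorem z4 (hSY : T_SY) (hR : T_R) (hW : T_W) (hW2 : T_W2) (hL4 : T_L4) (hC : T_C) : T_Z4 := by
  obtain ⟨C1, h1⟩ := hR 4 (by norm_num)
  obtain ⟨C2, h2⟩ := hL4
  obtain ⟨C3, h3⟩ := hC.2.1 4 (by norm_num)
  refine ⟨24 * C1 + 10 * C2 + 144 * C3, ?_⟩
  intro ι _ G _ _ ev hPC hodd hm
  obtain ⟨R3, R4, a1, a2, a3⟩ := main hSY hPC hW hW2
  have b1 := h1 ι hm (Fin 6) (by rw [Fintype.card_fin]) 0 1 2 3 (by decide)
  obtain ⟨b2, b3⟩ := h2 ι G ev hPC hodd hm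
  have b4 := h3 ι hm
  have e4 : #{d ∈ Vn ι 4 | ell d + 1 = 4} = #{c ∈ Vn ι 4 | ell c = 4 - 1} := by
    congr 1
    refine filter_congr fun z _ => ?_
    omega
  rw [e4] at b1
  have f1 : ((4 ! : ℕ) : ℝ) = 24 := by norm_num [Nat.factorial]
  have f2 : (((4 - 2)! : ℕ) : ℝ) = 2 := by norm_num [Nat.factorial]
  rw [f1] at b1
  rw [f2] at b4
  have b5 := abs_le.1 b4
  have a1' : (R3 : ℝ) + R4 ≤ #{w : Fin 6 → ι × Bool | nrm (vs w) = Fintype.card (Fin 6) ∧
      w 0 = w 1 ∧ w 2 = w 3} := by exact_mod_cast a1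
  have a2' : (z10 ev : ℝ) + 6 * z10b ev ≤ 24 * R4 := by exact_mod_cast a2
  have a3' : (z9 ev : ℝ) + 3 * al ev ≤ 6 * R3 := by exact_mod_cast a3
  have b1' : (#{w : Fin 6 → ι × Bool | nrm (vs w) = Fintype.card (Fin 6) ∧
      w 0 = w 1 ∧ w 2 = w 3} : ℝ) ≤ 24 * #{d ∈ Vn ι 4 | ell d = 4} +
        24 / 2 * #{c ∈ Vn ι 4 | ell c = 4 - 1} + C1 * (Fintype.card ι : ℝ) ^ (4 - 2) := by
    refine le_of_eq_of_le (congrArg Nat.cast cfi) b1
  norm_num at b5 b1'
  have a4 := a1'.trans b1'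
  obtain ⟨-, b5⟩ := b5
  nlinarith [b5, a4, a2', a3', b2, b3]

end

end Pool.Agent.H59.GC.Z4
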