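import Pool.Agent.H59.GC.Z
import Pool.Agent.H23.GC.Targets2

/-!
Upper bounds for words with coincidences (module ZU).
-/

set_option autoImplicit false

open Finset Pool.Agent.H23.GW Pool.Agent.H23.GC
open scoped Classical Nat

namespace Pool.Agent.H59.GC

noncomputable section

/-- module ZU -/
theorem zu : T_ZU := by
  intro s ι _ G _ ev hPC hs κ _
  have hD : Fintype.card (ι × Bool) = 2 * Fintype.card ι := by
    rw [Fintype.card_prod, Fintype.card_bool, mul_comm]
  rw [← hD]
  refine ⟨fun hκ i j k l hn => c22 hPC (by omega) hκ i j k l hn, ?_⟩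
  intro hκ i j k l p q hn
  have hn5 : [i, j, k, p, q].Nodup := by
    simp only [List.nodup_cons, List.mem_cons, List.not_mem_nil, or_false, not_or] at hn ⊢
    tauto
  refine ⟨?_, b32 hPC (by omega) hκ i j k p q hn5⟩
  have h := up222 hPC i j k l p q hn (by omega)
  rw [hκ, show 2 * s + 2 - s - 3 = s - 1 by omega] at h
  exact h

end

end Pool.Agent.H59.GC
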